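import Pool.Agent.W169.HF.AsmD
import Pool.Agent.Hp428.LS.Cnt

set_option autoImplicit false

/-!
# Standard L-functions near one height: unconditional bounds, and bounds from the size on a line
-/

namespace Pool.Agent.Hp428.LG

open Complex Filter Topology Set
open Pool.Agent.W169.HF
open Pool.Agent.Hp428.LS (NW)
open H353.E H353.F
open scoped ComplexConjugate

variable {m : ℕ} {P : Cls m}

/-- half the logarithm of the conductor, up to `O(1)` -/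
noncomputable def el (N : ℝ) (μ : Fin m → ℂ) (y : ℝ) : ℝ := (gaD N μ (3 / 2 + y * I)).re

/-- the size of the gamma factor on the line -/
noncomputable def Gy (N : ℝ) (μ : Fin m → ℂ) (y : ℝ) : ℝ := ‖gaf N μ (3 / 2 + y * I)‖ * Real.exp (-el N μ y)

/-- the function near the height `y` -/
noncomputable def fy (N : ℝ) (Λ : ℂ → ℂ) (y : ℝ) (u : ℂ) : ℂ := XX N Λ (1 / 2 + (y : ℂ) * I + u)

/-- the normalised function -/
noncomputable def Fy (N : ℝ) (μ : Fin m → ℂ) (Λ : ℂ → ℂ) (y : ℝ) (u : ℂ) : ℂ :=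
  fy N Λ y u * (((Gy N μ y)⁻¹ : ℝ) : ℂ)

lemma el_ge {N : ℝ} (hN : 1 ≤ N) {μ : Fin m → ℂ} (hμ : ∀ j, (μ j).re ≤ 1 / 2) (y : ℝ) :
    1 / 2 * Real.log (cnd N μ y) - 7 * m ≤ el N μ y := gaD_re_ge hN hμ y

lemma el_le {N : ℝ} (hN : 1 ≤ N) {μ : Fin m → ℂ} (hμ : ∀ j, (μ j).re ≤ 1 / 2) (y : ℝ) :
    el N μ y ≤ 1 / 2 * Real.log (cnd N μ y) + 5 * m := gaD_re_le hN hμ y

lemma el_large (W : ℝ) : ∃ C0 : ℝ, ∀ (N : ℝ) (μ : Fin m → ℂ) (y : ℝ), 1 ≤ N → (∀ j, (μ j).re ≤ 1 / 2) →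
    C0 ≤ cnd N μ y → W ≤ el N μ y := by
  refine ⟨Real.exp (2 * W + 14 * m), fun N μ y hN hμ hC => ?_⟩
  have h1 := lt_log hC
  have h2 := el_ge hN hμ y
  linarith

lemma Gy_pos (hm : 1 ≤ m) {N : ℝ} (hN : 1 ≤ N) {μ : Fin m → ℂ} (hμ : ∀ j, (μ j).re ≤ 1 / 2) (y : ℝ) :
    0 < Gy N μ y := by
  have := norm_pos_iff.2 ((gaf_GP hm hN hμ).ne (3 / 2 + y * I) (by simp; norm_num))
  unfold Gy
  positivity

lemma Fy_norm (hm : 1 ≤ m) {N : ℝ} (hN : 1 ≤ N) {μ : Fin m → ℂ} (hμ : ∀ j, (μ j).re ≤ 1 / 2) (Λ : ℂ → ℂ) (y : ℝ)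
    (u : ℂ) : ‖Fy N μ Λ y u‖ = ‖fy N Λ y u‖ / Gy N μ y := by
  unfold Fy
  rw [norm_mul, Complex.norm_real, Real.norm_of_nonneg (inv_nonneg.2 (Gy_pos hm hN hμ y).le), div_eq_mul_inv]

/-- unconditional profile -/
theorem pfA (hm : 1 ≤ m) {ρ κ R : ℝ} (hρ : 0 < ρ) (hρ1 : ρ ≤ 1) (hκ : 0 < κ) (hR : 1 ≤ R) :
    ∃ C0 K : ℝ, 1 ≤ K ∧ ∀ (N : ℝ) (μ : Fin m → ℂ) (α : Fin m → ℕ → ℂ) (e : ℂ) (Λ : ℂ → ℂ), Std N μ α e Λ →
      ∀ y : ℝ, C0 ≤ cnd N μ y → 1 ≤ el N μ y ∧ UD K (3 / 2) (el N μ y) (Gy N μ y) (fy N Λ y) ∧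
        Pf κ (1 / 2 + ρ) R (el N μ y) (Gy N μ y) (fy N Λ y) := by
  have hm' : (1 : ℝ) ≤ m := by exact_mod_cast hm
  obtain ⟨B, hB, HS⟩ := sharpX m hm (show (0 : ℝ) ≤ 1 / 2 by norm_num) le_rfl
    (show (0 : ℝ) < 1 / 2 by norm_num) (by norm_num)
  have hlogB : 0 ≤ Real.log B := Real.log_nonneg hB
  have hK : 1 ≤ Real.log B + 20 * (6 * m) := by linarith
  obtain ⟨R4, ℓ3, hR4, HP⟩ := prof_all (Real.log B + 20 * (6 * m)) (3 / 2) (1 / 2) ρ κ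
    R hK (by norm_num) (by norm_num) (by norm_num) (by norm_num) hρ hρ1 hκ hR
  obtain ⟨C0, hC0⟩ := el_large (m := m) (max ℓ3 1)
  refine ⟨C0, _, hK, ?_⟩
  intro N μ α e Λ hS y hC
  obtain ⟨d, hnz⟩ := hS
  obtain ⟨S, hslow, hfe, hzer, hne⟩ := HS N μ α e Λ d
  have hN1 := d.one_le
  have hN0 : (N : ℂ) ≠ 0 := by
    have : N ≠ 0 := by linarith
    exact_mod_cast this
  have hel := hC0 N μ y hN1 d.re_le hC
  have ud := ud_of_sharp S hslow (by norm_num) y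
  have e3 : (1 + 1 / 2 + 1 / 2 - 1 / 2 : ℝ) = 3 / 2 := by norm_num
  rw [e3] at ud
  refine ⟨(le_max_right _ _).trans hel, ud, ?_⟩
  exact HP _ _ _ ((le_max_left _ _).trans hel) ud (fun u hu1 _ h => by
    change XX N Λ (1 / 2 + (y : ℂ) * I + u) = 0 at h
    unfold XX at h
    rcases mul_eq_zero.1 h with h | h
    · exact absurd (Complex.cpow_eq_zero_iff _ _ |>.1 h).1 hN0
    · exact hnz _ (by simp; linarith) h)

lemma fy_symm {K ϑ0 ℓ G : ℝ} {f : ℂ → ℂ} (h : UD K ϑ0 ℓ G f) (u : ℂ) : ‖f (-conj u)‖ = ‖f u‖ := by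
  obtain ⟨ε, hε, h1⟩ := h.fe
  have h2 := congrArg norm (h1 u)
  rw [norm_mul, hε, one_mul, Complex.norm_conj] at h2
  exact h2.symm

/-- from the profile to the normalised situation -/
lemma nw_of_pf (hm : 1 ≤ m) {N : ℝ} (hN : 1 ≤ N) {μ : Fin m → ℂ} (hμ : ∀ j, (μ j).re ≤ 1 / 2) {Λ : ℂ → ℂ}
    {y K ρ κ ε R : ℝ} (hℓ : 0 ≤ el N μ y) (hρ : 0 ≤ ρ) (hε : ρ + κ ≤ ε) (hκ : 0 ≤ κ) (hR : 7 ≤ R)
    (ud : UD K (3 / 2) (el N μ y) (Gy N μ y) (fy N Λ y))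
    (pf : Pf κ (1 / 2 + ρ) R (el N μ y) (Gy N μ y) (fy N Λ y)) :
    NW (1 / 2) ε R (el N μ y) (Fy N μ Λ y) := by
  have hG := Gy_pos hm hN hμ y
  refine ⟨?_, fun u => ?_, fun u u1 u2 u3 => ?_, fun u u1 u2 u3 => ?_⟩
  · unfold Fy
    exact ud.slow.1.mul_const _
  · rw [Fy_norm hm hN hμ, Fy_norm hm hN hμ, fy_symm ud]
  · rw [Fy_norm hm hN hμ, div_le_iff₀ hG]
    refine (pf.upp u (by rwa [abs_of_nonneg u1]) (u3.trans hR)).trans ?_
    rw [mul_comm, abs_of_nonneg u1]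
    apply mul_le_mul_of_nonneg_right _ hG.le
    apply Real.exp_le_exp.2
    have h1 : max u.re (1 / 2 + ρ) ≤ max u.re (1 / 2) + ρ :=
      max_le (by linarith [le_max_left u.re (1 / 2)]) (by linarith [le_max_right u.re (1 / 2)])
    have h2 : el N μ y * (max u.re (1 / 2 + ρ) + κ) ≤ el N μ y * (max u.re (1 / 2) + ε) :=
      mul_le_mul_of_nonneg_left (by linarith) hℓ
    linarith
  · rw [Fy_norm hm hN hμ, le_div_iff₀ hG]
    refine le_trans ?_ (pf.low u (by linarith) u2 (u3.trans hR))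
    rw [mul_comm]
    apply mul_le_mul_of_nonneg_left _ hG.le
    apply Real.exp_le_exp.2
    have h2 : el N μ y * (u.re - ε) ≤ el N μ y * (u.re - κ) := mul_le_mul_of_nonneg_left (by linarith) hℓ
    linarith

/-- **The unconditional situation.** -/
theorem nwA (hm : 1 ≤ m) {ε R W : ℝ} (hε : 0 < ε) (hR : 7 ≤ R) :
    ∃ C0 : ℝ, ∀ (N : ℝ) (μ : Fin m → ℂ) (α : Fin m → ℕ → ℂ) (e : ℂ) (Λ : ℂ → ℂ), Std N μ α e Λ →
      ∀ y : ℝ, C0 ≤ cnd N μ y → W ≤ el N μ y ∧ NW (1 / 2) ε R (el N μ y) (Fy N μ Λ y) := by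
  obtain ⟨η, hη⟩ : ∃ η : ℝ, η = min (ε / 2) 1 := ⟨_, rfl⟩
  have h0 : 0 < η := by rw [hη]; exact lt_min (by linarith) one_pos
  have h1 : η ≤ ε / 2 := by rw [hη]; exact min_le_left _ _
  have h2 : η ≤ 1 := by rw [hη]; exact min_le_right _ _
  obtain ⟨C1, K, hK, H⟩ := pfA hm h0 h2 h0 (by linarith : 1 ≤ R)
  obtain ⟨C2, hC2⟩ := el_large (m := m) W
  refine ⟨max C1 C2, fun N μ α e Λ hS y hC => ?_⟩
  obtain ⟨k1, k2, k3⟩ := H N μ α e Λ hS y ((le_max_left _ _).trans hC)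
  exact ⟨hC2 N μ y hS.1.one_le hS.1.re_le ((le_max_right _ _).trans hC),
    nw_of_pf hm hS.1.one_le hS.1.re_le (by linarith) h0.le (by linarith) h0.le hR k2 k3⟩

/-- the size on a line -/
lemma line (hm : 1 ≤ m) {r a κ R : ℝ} (hr : 0 < r) (hr1 : r ≤ 1) (ha : 0 ≤ a) (hκ : 0 < κ) (hR : 0 ≤ R)
    (h : SEr P r a) :
    ∃ C0 : ℝ, ∀ (N : ℝ) (μ : Fin m → ℂ) (α : Fin m → ℕ → ℂ) (e : ℂ) (Λ : ℂ → ℂ), P N μ α e Λ → Std N μ α e Λ →
      ∀ y : ℝ, C0 ≤ cnd N μ y → ∀ v : ℝ, |v| ≤ R →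
        ‖fy N Λ y ((r : ℂ) + v * I)‖ ≤ Gy N μ y * Real.exp (el N μ y * (r + 2 * a) + κ * el N μ y) := by
  obtain ⟨B, HB⟩ := h (κ / 4) (by positivity)
  obtain ⟨K1, hK1⟩ : ∃ K1 : ℝ, K1 = (226 * m + 25 * m / r) * (1 + (r ^ 2 + R ^ 2)) + |B| +
    (a + κ / 4) * (14 * m + m * Real.log (1 + |R|)) := ⟨_, rfl⟩
  obtain ⟨C0, hC0⟩ := el_large (m := m) (K1 * 2 / κ)
  refine ⟨C0, fun N μ α e Λ hP hS y hC v hv => ?_⟩
  have hN := hS.1.one_le
  have hNpos : 0 < N := by linarith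
  have hμ := hS.1.re_le
  have hel := hC0 N μ y hN hμ hC
  rw [div_le_iff₀ hκ] at hel
  have hgu := gam_up hm hN hμ y hr hr1 (u := (r : ℂ) + v * I) (by simp)
  have hre : ((r : ℂ) + v * I).re = r := by simp
  have him : ((r : ℂ) + v * I).im = v := by simp
  rw [hre] at hgu
  obtain ⟨hg0, hg1⟩ := hgu
  have e1 : (1 / 2 + (y : ℂ) * I + ((r : ℂ) + v * I)) = 1 / 2 + (r : ℂ) + ((y + v : ℝ) : ℂ) * I := by
    push_cast; ring
  have hf : fy N Λ y ((r : ℂ) + v * I) = gaf N μ (1 / 2 + (y : ℂ) * I + ((r : ℂ) + v * I)) *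
      LL μ Λ (1 / 2 + (r : ℂ) + ((y + v : ℝ) : ℂ) * I) := by
    unfold fy
    rw [LL_eq hNpos, ← e1]
    generalize gaf N μ (1 / 2 + (y : ℂ) * I + ((r : ℂ) + v * I)) = g at hg0 ⊢
    rw [mul_left_comm, mul_inv_cancel₀ hg0, mul_one]
  rw [hf, norm_mul]
  have h2 := HB N μ α e Λ hP hS (y + v)
  have h3 := logm_shift hN μ (y := y + v) (y' := y) (R := R) (by
    rw [show y - (y + v) = -v by ring, abs_neg]
    exact hv.trans (le_abs_self R))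
  have hlo := el_ge hN hμ y
  have hnsq : ‖(r : ℂ) + v * I‖ ^ 2 ≤ r ^ 2 + R ^ 2 := nsq (by rw [hre, abs_of_pos hr]) (by rw [him]; exact hv)
  have hG := Gy_pos hm hN hμ y
  have h4 : ‖gaf N μ (1 / 2 + (y : ℂ) * I + ((r : ℂ) + v * I))‖ ≤
      Gy N μ y * Real.exp (el N μ y * r + (226 * m + 25 * m / r) * (1 + (r ^ 2 + R ^ 2))) := by
    refine hg1.trans ?_
    change Gy N μ y * _ ≤ _
    apply mul_le_mul_of_nonneg_left _ hG.le
    apply Real.exp_le_exp.2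
    have : (226 * m + 25 * m / r) * (1 + ‖(r : ℂ) + v * I‖ ^ 2) ≤
        (226 * m + 25 * m / r) * (1 + (r ^ 2 + R ^ 2)) := by
      apply mul_le_mul_of_nonneg_left (by linarith)
      positivity
    change el N μ y * r + _ ≤ _
    linarith
  have h5 : (a + κ / 4) * Real.log (cnd N μ (y + v)) ≤
      (a + κ / 4) * (2 * el N μ y + 14 * m + m * Real.log (1 + |R|)) :=
    mul_le_mul_of_nonneg_left (by linarith) (by positivity)
  calc _ ≤ (Gy N μ y * Real.exp (el N μ y * r + (226 * m + 25 * m / r) * (1 + (r ^ 2 + R ^ 2)))) *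
        Real.exp (B + (a + κ / 4) * Real.log (cnd N μ (y + v))) :=
        mul_le_mul h4 h2 (norm_nonneg _) (by positivity)
    _ = Gy N μ y * Real.exp (el N μ y * r + (226 * m + 25 * m / r) * (1 + (r ^ 2 + R ^ 2)) +
        (B + (a + κ / 4) * Real.log (cnd N μ (y + v)))) := by
        rw [mul_assoc, ← Real.exp_add]
    _ ≤ _ := by
        apply mul_le_mul_of_nonneg_left _ hG.le
        apply Real.exp_le_exp.2
        have hB := le_abs_self B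
        rw [hK1] at hel
        linarith

/-- **Convexity.** -/
theorem inner (hm : 1 ≤ m) {r a κ R : ℝ} (hr : 0 < r) (hr1 : r ≤ 1) (ha : 0 ≤ a) (ha1 : a ≤ 1) (hκ : 0 < κ)
    (hR : 1 ≤ R) (h : SEr P r a) :
    ∃ C0 : ℝ, ∀ (N : ℝ) (μ : Fin m → ℂ) (α : Fin m → ℕ → ℂ) (e : ℂ) (Λ : ℂ → ℂ), P N μ α e Λ → Std N μ α e Λ →
      ∀ y : ℝ, C0 ≤ cnd N μ y → ∀ u : ℂ, |u.re| ≤ r → |u.im| ≤ R →
        ‖fy N Λ y u‖ ≤ Gy N μ y * Real.exp (el N μ y * (r + 2 * a) + κ * el N μ y) := by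
  obtain ⟨κ1, R1, hκ1, hR1, HR⟩ := rect_all 4 (2 * r) κ R (by norm_num) (by linarith) (by linarith) hκ hR
  obtain ⟨C1, H1⟩ := line hm hr hr1 ha hκ1 (by linarith : 0 ≤ R1) h
  obtain ⟨C2, K, hK, H2⟩ := pfA hm one_pos le_rfl one_pos (le_max_right R1 1)
  refine ⟨max C1 C2, fun N μ α e Λ hP hS y hC u hu1 hu2 => ?_⟩
  have g1 := (le_max_left _ _).trans hC
  have g2 := (le_max_right _ _).trans hC
  obtain ⟨hℓ, ud, pf⟩ := H2 N μ α e Λ hS y g2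
  have hG := Gy_pos hm hS.1.one_le hS.1.re_le y
  have hl := H1 N μ α e Λ hP hS y g1
  have hbr : ∀ v : ℝ, |v| ≤ R1 → ‖fy N Λ y ((r : ℂ) + v * I)‖ ≤
      Gy N μ y * Real.exp (el N μ y * (r + 2 * a) + κ1 * el N μ y) := hl
  rw [abs_le] at hu1
  have key := HR (el N μ y) (-r) (r + 2 * a) (r + 2 * a) (Gy N μ y) (fy N Λ y) (by linarith) hG ud.slow.1
    (by rw [abs_of_nonneg (by linarith)]; linarith) (by rw [abs_of_nonneg (by linarith)]; linarith)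
    (fun w hw1 hw2 => by
      have e1 : w = -conj ((r : ℂ) + w.im * I) := by
        apply Complex.ext <;> simp [hw1]
      rw [e1, fy_symm ud]
      exact hbr w.im hw2)
    (fun w hw1 hw2 => by
      have e1 : w = (r : ℂ) + w.im * I := by
        apply Complex.ext
        · simp [hw1]; ring
        · simp
      rw [e1]
      exact hbr w.im hw2)
    (fun w hw1 hw2 hw3 => by
      refine (pf.upp w ?_ ?_).trans ?_
      · rw [abs_le]
        have := le_max_right R1 1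
        constructor <;> linarith
      · rw [hw3]; exact le_max_left _ _
      · apply mul_le_mul_of_nonneg_left _ hG.le
        apply Real.exp_le_exp.2
        have h5 : max |w.re| (1 / 2 + 1) ≤ 3 := by
          apply max_le _ (by norm_num)
          rw [abs_le]
          constructor <;> linarith
        have h6 : el N μ y * max |w.re| (1 / 2 + 1) ≤ el N μ y * 3 := mul_le_mul_of_nonneg_left h5 (by linarith)
        linarith) u hu1.1 (by linarith) hu2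
  rwa [sub_self, zero_mul, add_zero] at key

/-- **The situation when the size on the line `1/2 + b` is known.** -/
theorem nwB (hm : 1 ≤ m) {b ε R W : ℝ} (hb : 0 < b) (hb1 : b < 1 / 2) (hε : 0 < ε) (hR : 7 ≤ R)
    (h : SEr P b 0) :
    ∃ C0 : ℝ, ∀ (N : ℝ) (μ : Fin m → ℂ) (α : Fin m → ℕ → ℂ) (e : ℂ) (Λ : ℂ → ℂ), P N μ α e Λ → Std N μ α e Λ →
      ∀ y : ℝ, C0 ≤ cnd N μ y → W ≤ el N μ y ∧ NW b ε R (el N μ y) (Fy N μ Λ y) := by
  obtain ⟨η, hη⟩ : ∃ η : ℝ, η = min (ε / 2) 1 := ⟨_, rfl⟩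
  have h0 : 0 < η := by rw [hη]; exact lt_min (by linarith) one_pos
  have h1 : η ≤ ε / 2 := by rw [hη]; exact min_le_left _ _
  have h2 : η ≤ 1 := by rw [hη]; exact min_le_right _ _
  obtain ⟨κ1', R1, hκ1', hR1, HR⟩ := rect_all 4 (1 / 2 + η - b) (ε / 2) R (by norm_num) (by linarith)
    (by linarith) (by linarith) (by linarith)
  obtain ⟨κ1, hκ1d⟩ : ∃ κ1 : ℝ, κ1 = min κ1' (min η 1) := ⟨_, rfl⟩
  have hκ1 : 0 < κ1 := by rw [hκ1d]; exact lt_min hκ1' (lt_min h0 one_pos)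
  have hκ1a : κ1 ≤ κ1' := by rw [hκ1d]; exact min_le_left _ _
  have hκ1b : κ1 ≤ η := by rw [hκ1d]; exact (min_le_right _ _).trans (min_le_left _ _)
  have hκ1c : κ1 ≤ 1 := by rw [hκ1d]; exact (min_le_right _ _).trans (min_le_right _ _)
  obtain ⟨C1, K, hK, H1⟩ := pfA hm h0 h2 hκ1 (by linarith : 1 ≤ R1)
  obtain ⟨C2, H2⟩ := inner hm hb (by linarith) le_rfl (by norm_num) hκ1 (by linarith : 1 ≤ R1) h
  obtain ⟨C3, hC3⟩ := el_large (m := m) W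
  refine ⟨max C1 (max C2 C3), fun N μ α e Λ hP hS y hC => ?_⟩
  have g1 : C1 ≤ cnd N μ y := (le_max_left _ _).trans hC
  have g2 : C2 ≤ cnd N μ y := ((le_max_left _ _).trans (le_max_right _ _)).trans hC
  have g3 : C3 ≤ cnd N μ y := ((le_max_right _ _).trans (le_max_right _ _)).trans hC
  have hN := hS.1.one_le
  have hμ := hS.1.re_le
  obtain ⟨k1, ud, pf⟩ := H1 N μ α e Λ hS y g1
  have hin := H2 N μ α e Λ hP hS y g2
  refine ⟨hC3 N μ y hN hμ g3, ?_⟩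
  have hG := Gy_pos hm hN hμ y
  have nw := nw_of_pf hm hN hμ (by linarith) h0.le (by linarith : η + κ1 ≤ ε) hκ1.le (by linarith) ud pf
  have hℓ : 0 ≤ el N μ y := by linarith
  obtain ⟨ℓ, hℓd⟩ : ∃ ℓ : ℝ, ℓ = el N μ y := ⟨_, rfl⟩
  obtain ⟨G, hGd⟩ : ∃ G : ℝ, G = Gy N μ y := ⟨_, rfl⟩
  refine ⟨nw.diff, nw.symm, fun u u1 u2 u3 => ?_, fun u u1 u2 u3 => nw.lo u u1 (u2.trans hR1) u3⟩
  rw [Fy_norm hm hN hμ, div_le_iff₀ hG, mul_comm]
  rw [← hℓd, ← hGd] at pf ud hin ⊢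
  rw [← hℓd] at k1 hℓ
  rw [← hGd] at hG
  have hmono : ∀ x x' : ℝ, x ≤ x' → G * Real.exp x ≤ G * Real.exp x' := fun x x' hx =>
    mul_le_mul_of_nonneg_left (Real.exp_le_exp.2 hx) hG.le
  rcases le_or_gt u.re b with c1 | c1
  · refine (hin u (by rw [abs_of_nonneg u1]; exact c1) (by linarith)).trans (hmono _ _ ?_)
    rw [max_eq_right c1, mul_zero, add_zero]
    have : κ1 * ℓ ≤ ε * ℓ := mul_le_mul_of_nonneg_right (by linarith) hℓ
    linarith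
  rw [max_eq_left c1.le]
  rcases le_or_gt (1 / 2 + η) u.re with c2 | c2
  · refine (pf.upp u (by rw [abs_of_nonneg u1]; linarith) (by linarith)).trans (hmono _ _ ?_)
    rw [abs_of_nonneg u1, max_eq_left c2]
    have : κ1 * ℓ ≤ ε * ℓ := mul_le_mul_of_nonneg_right (by linarith) hℓ
    linarith
  · have key := HR ℓ b b (1 / 2 + η) G (fy N Λ y) hℓ hG ud.slow.1
      (by rw [abs_of_nonneg (by linarith)]; linarith) (by rw [abs_of_nonneg (by linarith)]; linarith)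
      (fun w hw1 hw2 => by
        refine (hin w (by rw [hw1, abs_of_pos hb]) hw2).trans (hmono _ _ ?_)
        rw [mul_zero, add_zero]
        have : κ1 * ℓ ≤ κ1' * ℓ := mul_le_mul_of_nonneg_right hκ1a hℓ
        linarith)
      (fun w hw1 hw2 => by
        have e1 : w.re = 1 / 2 + η := by rw [hw1]; ring
        refine (pf.upp w (by rw [e1, abs_of_nonneg (by linarith)]; linarith) hw2).trans (hmono _ _ ?_)
        rw [e1, abs_of_nonneg (by linarith), max_self]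
        have : κ1 * ℓ ≤ κ1' * ℓ := mul_le_mul_of_nonneg_right hκ1a hℓ
        linarith)
      (fun w hw1 hw2 hw3 => by
        refine (pf.upp w (by rw [abs_of_nonneg (by linarith)]; linarith) hw3.le).trans (hmono _ _ ?_)
        have h5 : max |w.re| (1 / 2 + η) ≤ 3 := by
          apply max_le _ (by linarith)
          rw [abs_of_nonneg (by linarith)]
          linarith
        have h6 : ℓ * max |w.re| (1 / 2 + η) ≤ ℓ * 3 := mul_le_mul_of_nonneg_left h5 hℓ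
        have : κ1 * ℓ ≤ 1 * ℓ := mul_le_mul_of_nonneg_right hκ1c hℓ
        linarith) u c1.le (by linarith) (by linarith)
    refine key.trans (hmono _ _ ?_)
    have e5 : (1 / 2 + η - b) * ((u.re - b) / (1 / 2 + η - b)) = u.re - b := by
      have h9 : 1 / 2 + η - b ≠ 0 := by
        intro h
        linarith
      rw [mul_comm, div_mul_cancel₀ _ h9]
    rw [e5]
    have : ε / 2 * ℓ ≤ ε * ℓ := mul_le_mul_of_nonneg_right (by linarith) hℓ
    linarith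

end Pool.Agent.Hp428.LG
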