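import Pool.Agent.Hp428.LG.A

set_option autoImplicit false

/-!
# Sums of two shifts of completed L-functions: few zeros and upper bounds
-/

namespace Pool.Agent.Hp428.LG

open Complex Filter Topology Set
open Pool.Agent.W169.HF
open Pool.Agent.Hp428.LS (NW GG ord_tr few_up up_few)
open H353.E H353.F
open scoped ComplexConjugate

variable {m : ℕ} {P : Cls m}

/-- `e^{iθ} X(z + b) + e^{-iθ} X(z - b)` -/
noncomputable def YG (X : ℂ → ℂ) (θ b : ℝ) (z : ℂ) : ℂ := cexp (θ * I) * X (z + b) + cexp (-(θ * I)) * X (z - b)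

/-- few zeros -/
def FS (P : Cls m) (θ b : ℝ) : Prop := ∀ δ ε : ℝ, 0 < δ → 0 < ε → ∃ C0 : ℝ,
  ∀ (N : ℝ) (μ : Fin m → ℂ) (α : Fin m → ℕ → ℂ) (e : ℂ) (Λ : ℂ → ℂ), P N μ α e Λ → Std N μ α e Λ →
  ∀ y : ℝ, C0 ≤ cnd N μ y →
    Cnt (YG (XX N Λ) θ b) {z : ℂ | 1 / 2 + δ ≤ z.re ∧ z.re ≤ 1 ∧ |z.im - y| ≤ 1} (ε * Real.log (cnd N μ y))

lemma cn (θ : ℝ) : ‖cexp (θ * I)‖ = 1 := Complex.norm_exp_ofReal_mul_I θ

lemma cn' (θ : ℝ) : ‖cexp (-(θ * I))‖ = 1 := by
  have := Complex.norm_exp_ofReal_mul_I (-θ)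
  rwa [Complex.ofReal_neg, neg_mul] at this

lemma YG_diff {X : ℂ → ℂ} (hX : Differentiable ℂ X) (θ b : ℝ) : Differentiable ℂ (YG X θ b) := by
  unfold YG
  exact ((hX.comp (by fun_prop : Differentiable ℂ fun w : ℂ => w + b)).const_mul _).add
    ((hX.comp (by fun_prop : Differentiable ℂ fun w : ℂ => w - b)).const_mul _)

lemma XX_diff {N : ℝ} (hN : 1 ≤ N) {Λ : ℂ → ℂ} (h : Differentiable ℂ Λ) : Differentiable ℂ (XX N Λ) := by
  have hN0 : (N : ℂ) ≠ 0 := by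
    have : N ≠ 0 := by linarith
    exact_mod_cast this
  unfold XX
  intro z
  exact ((DifferentiableAt.const_cpow (by fun_prop) (Or.inl hN0))).mul (h z)

lemma YG_GG (N : ℝ) (μ : Fin m → ℂ) (Λ : ℂ → ℂ) (θ b y : ℝ) (u : ℂ) :
    GG (cexp (θ * I)) (cexp (-(θ * I))) b (Fy N μ Λ y) u =
      YG (XX N Λ) θ b (1 / 2 + (y : ℂ) * I + u) * (((Gy N μ y)⁻¹ : ℝ) : ℂ) := by
  unfold GG Fy fy YG
  have e1 : 1 / 2 + (y : ℂ) * I + (u + b) = 1 / 2 + (y : ℂ) * I + u + b := by ring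
  have e2 : 1 / 2 + (y : ℂ) * I + (u - b) = 1 / 2 + (y : ℂ) * I + u - b := by ring
  rw [e1, e2]
  ring

lemma GG_ord (hm : 1 ≤ m) {N : ℝ} (hN : 1 ≤ N) {μ : Fin m → ℂ} (hμ : ∀ j, (μ j).re ≤ 1 / 2) {Λ : ℂ → ℂ}
    (hΛ : Differentiable ℂ Λ) {θ b : ℝ} (hne : ∃ z, YG (XX N Λ) θ b z ≠ 0) (y : ℝ) (u : ℂ) :
    analyticOrderNatAt (GG (cexp (θ * I)) (cexp (-(θ * I))) b (Fy N μ Λ y)) u =
      analyticOrderNatAt (YG (XX N Λ) θ b) (1 / 2 + (y : ℂ) * I + u) := by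
  have hc0 : (((Gy N μ y)⁻¹ : ℝ) : ℂ) ≠ 0 := by
    rw [Complex.ofReal_ne_zero]
    exact (inv_pos.2 (Gy_pos hm hN hμ y)).ne'
  have h := ord_tr (G := YG (XX N Λ) θ b) (E := fun _ => (((Gy N μ y)⁻¹ : ℝ) : ℂ))
    (YG_diff (XX_diff hN hΛ) θ b) hne (a := 1) one_ne_zero (b := 1 / 2 + (y : ℂ) * I) (by fun_prop)
    (fun _ => hc0) u
  have e : GG (cexp (θ * I)) (cexp (-(θ * I))) b (Fy N μ Λ y) =
      fun u => YG (XX N Λ) θ b (1 * u + (1 / 2 + (y : ℂ) * I)) * (((Gy N μ y)⁻¹ : ℝ) : ℂ) := by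
    funext v
    rw [YG_GG, one_mul, add_comm v]
  rw [e, h, one_mul, add_comm u]

lemma GG_zero (hm : 1 ≤ m) {N : ℝ} (hN : 1 ≤ N) {μ : Fin m → ℂ} (hμ : ∀ j, (μ j).re ≤ 1 / 2) (Λ : ℂ → ℂ)
    (θ b y : ℝ) (u : ℂ) : GG (cexp (θ * I)) (cexp (-(θ * I))) b (Fy N μ Λ y) u = 0 ↔
      YG (XX N Λ) θ b (1 / 2 + (y : ℂ) * I + u) = 0 := by
  have hc0 : (((Gy N μ y)⁻¹ : ℝ) : ℂ) ≠ 0 := by
    rw [Complex.ofReal_ne_zero]
    exact (inv_pos.2 (Gy_pos hm hN hμ y)).ne'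
  rw [YG_GG]
  constructor
  · intro h
    rcases mul_eq_zero.1 h with h | h
    · exact h
    · exact absurd h hc0
  · intro h
    rw [h, zero_mul]

lemma ord_z {F : ℂ → ℂ} (h : ∀ u, F u = 0) (u : ℂ) : analyticOrderNatAt F u = 0 := by
  have h4 : F = fun _ => 0 := funext h
  unfold analyticOrderNatAt
  rw [h4]
  have : analyticOrderAt (fun _ : ℂ => (0 : ℂ)) u = ⊤ := by
    rw [analyticOrderAt_eq_top]
    exact Eventually.of_forall fun _ => rfl
  rw [this]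
  rfl

/-- **Few zeros.** -/
theorem few_of (hm : 1 ≤ m) {b : ℝ} (hb : 0 < b) (h : b < 1 / 2 → SEr P b 0) (θ : ℝ) : FS P θ b := by
  intro δ ε hδ hε
  obtain ⟨ε', L0, hε', hL0, H⟩ := up_few b (min δ 1) ε hb (lt_min hδ one_pos) (min_le_right _ _) hε
  have hnw : ∃ C0 : ℝ, ∀ (N : ℝ) (μ : Fin m → ℂ) (α : Fin m → ℕ → ℂ) (e : ℂ) (Λ : ℂ → ℂ), P N μ α e Λ →
      Std N μ α e Λ → ∀ y : ℝ, C0 ≤ cnd N μ y → max L0 (3 * m) ≤ el N μ y ∧
        NW (min b (1 / 2)) ε' (10 + b) (el N μ y) (Fy N μ Λ y) := by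
    rcases lt_or_ge b (1 / 2) with h1 | h1
    · rw [min_eq_left h1.le]
      exact nwB hm hb h1 hε' (by linarith) (h h1)
    · rw [min_eq_right h1]
      obtain ⟨C0, hC0⟩ := nwA (m := m) (W := max L0 (3 * m)) hm hε' (by linarith : 7 ≤ 10 + b)
      exact ⟨C0, fun N μ α e Λ _ hS y hC => hC0 N μ α e Λ hS y hC⟩
  obtain ⟨C1, h1⟩ := hnw
  refine ⟨max C1 (Real.exp (10 * m)), fun N μ α e Λ hP hS y hC S hS' => ?_⟩
  have hN := hS.1.one_le
  have hμ := hS.1.re_le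
  have g1 : C1 ≤ cnd N μ y := (le_max_left _ _).trans hC
  have g2 := lt_log ((le_max_right _ _).trans hC)
  obtain ⟨k1, k2⟩ := h1 N μ α e Λ hP hS y g1
  have hlog : 0 ≤ Real.log (cnd N μ y) := Real.log_nonneg (cnd_pos hN μ y)
  by_cases hne : ∃ z, YG (XX N Λ) θ b z ≠ 0
  swap
  · push Not at hne
    have h3 : ∑ z ∈ S, (analyticOrderNatAt (YG (XX N Λ) θ b) z : ℝ) = 0 :=
      Finset.sum_eq_zero fun z _ => by rw [ord_z hne]; simp
    rw [h3]
    positivity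
  classical
  have key := H (el N μ y) (10 + b) (Fy N μ Λ y) (cexp (θ * I)) (cexp (-(θ * I)))
    ((le_max_left _ _).trans k1) le_rfl (cn θ) (cn' θ) k2
    (S.image fun z => z - (1 / 2 + (y : ℂ) * I)) (by
      intro u hu
      rw [Finset.mem_image] at hu
      obtain ⟨z, hz, rfl⟩ := hu
      obtain ⟨z1, z2, z3, z4⟩ := hS' z hz
      have e1 : (z - (1 / 2 + (y : ℂ) * I)).re = z.re - 1 / 2 := by simp
      have e2 : (z - (1 / 2 + (y : ℂ) * I)).im = z.im - y := by simp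
      rw [e1, e2, GG_zero hm hN hμ, add_sub_cancel]
      have h5 := min_le_left δ 1
      rw [abs_of_nonneg (by linarith : 0 ≤ z.re - 1 / 2)]
      exact ⟨z1, by linarith, by linarith, z4⟩)
  rw [Finset.sum_image (by
    intro x _ y' _ hxy
    simpa using hxy)] at key
  simp only [GG_ord hm hN hμ hS.1.entire hne, add_sub_cancel] at key
  refine key.trans ?_
  have h5 := el_le hN hμ y
  have h6 : el N μ y ≤ Real.log (cnd N μ y) := by linarith
  exact mul_le_mul_of_nonneg_left h6 hε.le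

/-- **Few zeros give an upper bound.** -/
theorem few_bd (hm : 1 ≤ m) {θ b : ℝ} (hb : 0 < b) (h : FS P θ b) (η : ℝ) (hη : 0 < η) (hη4 : η ≤ 1 / 4) :
    ∃ C0 : ℝ, ∀ (N : ℝ) (μ : Fin m → ℂ) (α : Fin m → ℕ → ℂ) (e : ℂ) (Λ : ℂ → ℂ), P N μ α e Λ →
      Std N μ α e Λ → ∀ y : ℝ, C0 ≤ cnd N μ y → ∀ σ : ℝ, η ≤ σ → σ ≤ 3 →
      ‖YG (XX N Λ) θ b (1 / 2 + (y : ℂ) * I + (σ : ℂ))‖ ≤ Real.exp (el N μ y * (σ + b + η)) * Gy N μ y := by
  obtain ⟨ε', L0, hε', hL0, H⟩ := few_up b η hb hη hη4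
  obtain ⟨C3, h3⟩ := h (η / 4) (ε' / 24) (by positivity) (by positivity)
  obtain ⟨rr, hrr⟩ : ∃ rr : ℝ, rr = m * Real.log (1 + |(5 : ℝ)|) := ⟨_, rfl⟩
  obtain ⟨C1, h1⟩ := nwA (m := m) (W := max L0 (7 * m + |rr|)) hm hε' (by linarith : 7 ≤ 10 + b)
  refine ⟨max C1 (|C3| * (1 + |(5 : ℝ)|) ^ m), fun N μ α e Λ hP hS y hC σ hσ1 hσ2 => ?_⟩
  have hN := hS.1.one_le
  have hμ := hS.1.re_le
  have hG := Gy_pos hm hN hμ y
  obtain ⟨k1, k2⟩ := h1 N μ α e Λ hS y ((le_max_left _ _).trans hC)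
  have k1a := (le_max_left _ _).trans k1
  have k1b := (le_max_right _ _).trans k1
  have hCb : |C3| * (1 + |(5 : ℝ)|) ^ m ≤ cnd N μ y := (le_max_right _ _).trans hC
  by_cases hne : ∃ z, YG (XX N Λ) θ b z ≠ 0
  swap
  · push Not at hne
    rw [hne, norm_zero]
    positivity
  classical
  have key := H (el N μ y) (10 + b) (Fy N μ Λ y) (cexp (θ * I)) (cexp (-(θ * I))) k1a le_rfl (cn θ) (cn' θ) k2
    (by
      intro S hS'
      obtain ⟨g, hg⟩ : ∃ g : ℂ → ℕ, g = fun u => ⌊(u.im + 6) / 2⌋₊ := ⟨_, rfl⟩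
      have hmaps : ∀ u ∈ S, g u ∈ Finset.range 6 := by
        intro u hu
        obtain ⟨-, -, -, u4⟩ := hS' u hu
        rw [abs_le] at u4
        rw [hg, Finset.mem_range, Nat.floor_lt (by linarith)]
        push_cast
        linarith
      rw [← Finset.sum_fiberwise_of_maps_to hmaps]
      have hcell : ∀ j ∈ Finset.range 6, (∑ u ∈ S with g u = j,
          (analyticOrderNatAt (GG (cexp (θ * I)) (cexp (-(θ * I))) b (Fy N μ Λ y)) u : ℝ)) ≤
            ε' / 6 * el N μ y := by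
        intro j hj
        rw [Finset.mem_range] at hj
        have hj0 : (0 : ℝ) ≤ j := by positivity
        have hj5 : (j : ℝ) ≤ 5 := by
          have : j ≤ 5 := by omega
          exact_mod_cast this
        obtain ⟨y', hy'⟩ : ∃ y' : ℝ, y' = y - 5 + 2 * j := ⟨_, rfl⟩
        have hyy : |y' - y| ≤ |(5 : ℝ)| := by
          rw [hy', abs_of_pos (by norm_num : (0 : ℝ) < 5), abs_le]
          constructor <;> linarith
        have h6 := cndm_shift (N := N) (by linarith) μ hyy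
        have h5 : 0 < (1 + |(5 : ℝ)|) ^ m := by positivity
        rw [abs_sub_comm] at hyy
        have h7 := logm_shift hN μ hyy
        rw [← hrr] at h7
        have k := h3 N μ α e Λ hP hS y' ((le_abs_self C3).trans
          (le_of_mul_le_mul_right (hCb.trans h6) h5))
          ((S.filter fun u => g u = j).image fun u => 1 / 2 + (y : ℂ) * I + u) (by
          intro z hz
          rw [Finset.mem_image] at hz
          obtain ⟨u, hu, rfl⟩ := hz
          rw [Finset.mem_filter] at hu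
          obtain ⟨u1, u2, u3, u4⟩ := hS' u hu.1
          rw [abs_le] at u4
          have e1 : (1 / 2 + (y : ℂ) * I + u).re = 1 / 2 + u.re := by simp
          have e2 : (1 / 2 + (y : ℂ) * I + u).im = y + u.im := by simp
          have hgu : ⌊(u.im + 6) / 2⌋₊ = j := by
            have := hu.2
            rwa [hg] at this
          have h4 : 0 ≤ (u.im + 6) / 2 := by linarith
          have h5 := Nat.floor_le h4
          have h6 := Nat.lt_floor_add_one ((u.im + 6) / 2)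
          rw [hgu] at h5 h6
          refine ⟨(GG_zero hm hN hμ Λ θ b y u).1 u1, ?_⟩
          rw [mem_setOf_eq, e1, e2, hy', abs_le]
          refine ⟨by linarith, by linarith, ?_, ?_⟩ <;> linarith)
        rw [Finset.sum_image (by
          intro x _ y _ hxy
          simpa using hxy)] at k
        have e3 : (∑ u ∈ S with g u = j,
            (analyticOrderNatAt (GG (cexp (θ * I)) (cexp (-(θ * I))) b (Fy N μ Λ y)) u : ℝ)) =
            ∑ u ∈ S with g u = j, (analyticOrderNatAt (YG (XX N Λ) θ b) (1 / 2 + (y : ℂ) * I + u) : ℝ) :=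
          Finset.sum_congr rfl fun u _ => by rw [GG_ord hm hN hμ hS.1.entire hne]
        rw [e3]
        refine k.trans ?_
        have h8 : Real.log (cnd N μ y') ≤ 4 * el N μ y := by
          have a1 := el_ge hN hμ y
          have a2 := le_abs_self rr
          have a3 := abs_nonneg rr
          linarith
        calc ε' / 24 * Real.log (cnd N μ y') ≤ ε' / 24 * (4 * el N μ y) :=
            mul_le_mul_of_nonneg_left h8 (by positivity)
          _ = _ := by ring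
      refine (Finset.sum_le_sum hcell).trans ?_
      rw [Finset.sum_const, Finset.card_range, nsmul_eq_mul]
      apply le_of_eq
      push_cast
      ring) σ hσ1 hσ2
  rw [YG_GG, norm_mul, Complex.norm_real, Real.norm_of_nonneg (inv_nonneg.2 hG.le),
    ← div_eq_mul_inv, div_le_iff₀ hG] at key
  exact key

end Pool.Agent.Hp428.LG
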