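import Pool.Agent.Hp428.LG.B

set_option autoImplicit false

/-!
# Two phases, three shifts, and the size on vertical lines
-/

namespace Pool.Agent.Hp428.LG

open Complex Filter Topology Set
open Pool.Agent.W169.HF
open H353.E H353.F
open scoped ComplexConjugate

variable {m : ℕ} {P : Cls m}

/-! ## Two phases -/

lemma two_ph (X : ℂ → ℂ) (θ1 θ2 b : ℝ) (z : ℂ) :
    2 * |Real.sin (θ1 - θ2)| * ‖X (z + b)‖ ≤ ‖YG X θ1 b z‖ + ‖YG X θ2 b z‖ := by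
  obtain ⟨p, hp⟩ : ∃ p : ℂ, p = cexp (θ1 * I) := ⟨_, rfl⟩
  obtain ⟨q, hq⟩ : ∃ q : ℂ, q = cexp (θ2 * I) := ⟨_, rfl⟩
  have hp' : cexp (-(θ1 * I)) = p⁻¹ := by rw [hp, Complex.exp_neg]
  have hq' : cexp (-(θ2 * I)) = q⁻¹ := by rw [hq, Complex.exp_neg]
  have hp0 : p ≠ 0 := by rw [hp]; exact Complex.exp_ne_zero _
  have hq0 : q ≠ 0 := by rw [hq]; exact Complex.exp_ne_zero _
  have e1 : cexp (-(θ2 * I)) * YG X θ1 b z - cexp (-(θ1 * I)) * YG X θ2 b z =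
      2 * (Real.sin (θ1 - θ2) : ℂ) * I * X (z + b) := by
    have e2 : 2 * (Real.sin (θ1 - θ2) : ℂ) * I = q⁻¹ * p - p⁻¹ * q := by
      rw [Complex.ofReal_sin, Complex.sin]
      push_cast
      have a1 : cexp (-((θ1 : ℂ) - θ2) * I) = p⁻¹ * q := by
        rw [← hp', hq, ← Complex.exp_add]; congr 1; ring
      have a2 : cexp (((θ1 : ℂ) - θ2) * I) = q⁻¹ * p := by
        rw [← hq', hp, ← Complex.exp_add]; congr 1; ring
      rw [a1, a2]
      linear_combination (p⁻¹ * q - q⁻¹ * p) * Complex.I_sq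
    rw [e2]
    unfold YG
    rw [hp', hq', ← hp, ← hq]
    field_simp
    ring
  have h1 := congrArg norm e1
  rw [norm_mul, norm_mul, norm_mul, Complex.norm_I, mul_one, Complex.norm_real, Real.norm_eq_abs,
    Complex.norm_ofNat] at h1
  rw [← h1]
  refine (norm_sub_le _ _).trans ?_
  rw [norm_mul, norm_mul, cn', cn', one_mul, one_mul]

/-! ## Three shifts -/

lemma three (X : ℂ → ℂ) (θ b1 b2 : ℝ) (z : ℂ) : 2 * |Real.cos θ| * ‖X z‖ ≤
    ‖YG X θ b1 (z + b1)‖ + ‖YG X θ b2 (z + 2 * b1 + b2)‖ + ‖YG X θ (b1 + b2) (z + b1 + b2)‖ := by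
  obtain ⟨a, ha⟩ : ∃ a : ℂ, a = cexp (θ * I) := ⟨_, rfl⟩
  have ha' : cexp (-(θ * I)) = a⁻¹ := by rw [ha, Complex.exp_neg]
  have ha0 : a ≠ 0 := by rw [ha]; exact Complex.exp_ne_zero _
  have hn : ‖a‖ = 1 := by rw [ha]; exact cn θ
  have hcos : 2 * (Real.cos θ : ℂ) = a + a⁻¹ := by
    rw [← ha', ha, Complex.ofReal_cos, Complex.cos, ← neg_mul]
    ring
  have e1 : 2 * (Real.cos θ : ℂ) * X z = YG X θ b1 (z + b1) - a * a * YG X θ b2 (z + 2 * b1 + b2) +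
      a * a * YG X θ (b1 + b2) (z + b1 + b2) := by
    rw [hcos]
    unfold YG
    rw [ha', ← ha]
    push_cast
    have a1 : z + (b1 : ℂ) + b1 = z + 2 * b1 := by ring
    have a2 : z + (b1 : ℂ) - b1 = z := by ring
    have a3 : z + 2 * (b1 : ℂ) + b2 + b2 = z + 2 * b1 + 2 * b2 := by ring
    have a4 : z + 2 * (b1 : ℂ) + b2 - b2 = z + 2 * b1 := by ring
    have a5 : z + (b1 : ℂ) + b2 + (b1 + b2) = z + 2 * b1 + 2 * b2 := by ring
    have a6 : z + (b1 : ℂ) + b2 - (b1 + b2) = z := by ring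
    rw [a1, a2, a3, a4, a5, a6]
    field_simp
    ring
  have h1 := congrArg norm e1
  rw [norm_mul, norm_mul, Complex.norm_real, Real.norm_eq_abs, Complex.norm_ofNat] at h1
  rw [h1]
  refine (norm_add_le _ _).trans ?_
  have h2 := norm_sub_le (YG X θ b1 (z + b1)) (a * a * YG X θ b2 (z + 2 * b1 + b2))
  rw [norm_mul, norm_mul, hn, one_mul, one_mul] at h2
  rw [norm_mul (a * a), norm_mul a, hn, one_mul, one_mul]
  linarith

/-! ## Symmetry -/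

lemma conj_e (θ : ℝ) : conj (cexp (θ * I)) = cexp (-(θ * I)) := by
  rw [← Complex.exp_conj]
  congr 1
  simp

lemma conj_e' (θ : ℝ) : conj (cexp (-(θ * I))) = cexp (θ * I) := by
  rw [← Complex.exp_conj]
  congr 1
  simp

lemma YG_sym {X : ℂ → ℂ} {e : ℂ} (he : ‖e‖ = 1) (h : ∀ z, X z = e * conj (X (1 - conj z))) (θ b : ℝ) (z : ℂ) :
    ‖YG X θ b (1 - conj z)‖ = ‖YG X θ b z‖ := by
  have h1 : YG X θ b z = e * conj (YG X θ b (1 - conj z)) := by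
    unfold YG
    rw [map_add, map_mul, map_mul, conj_e, conj_e', h (z + b), h (z - b)]
    have e1 : 1 - conj (z + (b : ℂ)) = 1 - conj z - b := by
      rw [map_add, Complex.conj_ofReal]; ring
    have e2 : 1 - conj (z - (b : ℂ)) = 1 - conj z + b := by
      rw [map_sub, Complex.conj_ofReal]; ring
    rw [e1, e2]
    ring
  rw [h1, norm_mul, he, one_mul, Complex.norm_conj]

lemma XX_fe (hm : 1 ≤ m) {N : ℝ} {μ : Fin m → ℂ} {α : Fin m → ℕ → ℂ} {e : ℂ} {Λ : ℂ → ℂ} (hS : Std N μ α e Λ) :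
    ‖e‖ = 1 ∧ ∀ z, XX N Λ z = e * conj (XX N Λ (1 - conj z)) := by
  obtain ⟨B, hB, HS⟩ := sharpX m hm (show (0 : ℝ) ≤ 1 / 2 by norm_num) le_rfl
    (show (0 : ℝ) < 1 / 2 by norm_num) (by norm_num)
  obtain ⟨-, -, hfe, -, -⟩ := HS N μ α e Λ hS.1
  exact ⟨hS.1.norm_eq, hfe⟩

lemma left (y σ : ℝ) : 1 / 2 + (y : ℂ) * I + ((-σ : ℝ) : ℂ) = 1 - conj (1 / 2 + (y : ℂ) * I + (σ : ℂ)) := by
  apply Complex.ext
  · simp
    ring
  · simp

/-! ## The size on vertical lines -/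

/-- from bounds at one point of each window to the size -/
lemma ser_of (hm : 1 ≤ m) {r a : ℝ} (hr : 0 ≤ r) (hr1 : r ≤ 1 / 2) (ha : 0 ≤ a)
    (h : ∀ ε : ℝ, 0 < ε → ∃ C0 : ℝ, ∀ (N : ℝ) (μ : Fin m → ℂ) (α : Fin m → ℕ → ℂ) (e : ℂ) (Λ : ℂ → ℂ),
      P N μ α e Λ → Std N μ α e Λ → ∀ y : ℝ, C0 ≤ cnd N μ y →
        ‖fy N Λ y (r : ℂ)‖ ≤ Gy N μ y * Real.exp (el N μ y * (r + 2 * a + ε))) : SEr P r a := by
  intro ε hε
  obtain ⟨C0, HC⟩ := h ε hε
  obtain ⟨B2, HT⟩ := aut_triv_r m hm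
  refine ⟨max (462 * m + (2 * a + ε) * (5 * m)) (B2 + 3 / 4 * Real.log (max C0 1)),
    fun N μ α e Λ hP hS y => ?_⟩
  have hN := hS.1.one_le
  have hμ := hS.1.re_le
  have hc := cnd_pos hN μ y
  have hL0 : 0 ≤ Real.log (cnd N μ y) := Real.log_nonneg hc
  have hm' : (1 : ℝ) ≤ m := by exact_mod_cast hm
  rcases le_total (cnd N μ y) (max C0 1) with hsm | hbig
  · refine (HT N μ α e Λ hS.1 y r hr hr1).trans (Real.exp_le_exp.2 ?_)
    have h3 : Real.log (cnd N μ y) ≤ Real.log (max C0 1) := Real.log_le_log (by linarith) hsm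
    have h4 := le_max_right (462 * m + (2 * a + ε) * (5 * m)) (B2 + 3 / 4 * Real.log (max C0 1))
    have h5 : 0 ≤ (a + ε) * Real.log (cnd N μ y) := mul_nonneg (by linarith) hL0
    linarith
  · have h1 := HC N μ α e Λ hP hS y ((le_max_left _ _).trans hbig)
    have h2 := LL_le_r hm hN hμ Λ y hr (by linarith) h1
    refine h2.trans (Real.exp_le_exp.2 ?_)
    have h4 := le_max_left (462 * m + (2 * a + ε) * (5 * m)) (B2 + 3 / 4 * Real.log (max C0 1))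
    have h6 := el_le hN hμ y
    change 462 * (m : ℝ) + el N μ y * (r + 2 * a + ε) - el N μ y * r ≤ _
    have h7 : el N μ y * (2 * a + ε) ≤ (1 / 2 * Real.log (cnd N μ y) + 5 * m) * (2 * a + ε) :=
      mul_le_mul_of_nonneg_right h6 (by linarith)
    have h8 : 0 ≤ ε * Real.log (cnd N μ y) := by positivity
    linarith

/-- from the lines near `1/2 + b` -/
lemma ser_near (hm : 1 ≤ m) {b η0 : ℝ} (hb : 0 < b) (hb1 : b < 1 / 2) (hη0 : 0 < η0)
    (h : ∀ η : ℝ, 0 < η → η ≤ η0 → ∃ C0 : ℝ, ∀ (N : ℝ) (μ : Fin m → ℂ) (α : Fin m → ℕ → ℂ) (e : ℂ) (Λ : ℂ → ℂ),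
      P N μ α e Λ → Std N μ α e Λ → ∀ y : ℝ, C0 ≤ cnd N μ y →
        ‖fy N Λ y ((b + η : ℝ) : ℂ)‖ ≤ Real.exp (el N μ y * (b + 4 * η)) * Gy N μ y) : SEr P b 0 := by
  refine ser_of hm hb.le hb1.le le_rfl fun ε hε => ?_
  obtain ⟨η, hηd⟩ : ∃ η : ℝ, η = min (min (ε / 8) η0) (1 / 2 - b) := ⟨_, rfl⟩
  have hη : 0 < η := by rw [hηd]; exact lt_min (lt_min (by linarith) hη0) (by linarith)
  have hη1 : η ≤ ε / 8 := by rw [hηd]; exact (min_le_left _ _).trans (min_le_left _ _)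
  have hη2 : η ≤ η0 := by rw [hηd]; exact (min_le_left _ _).trans (min_le_right _ _)
  have hη3 : η ≤ 1 / 2 - b := by rw [hηd]; exact min_le_right _ _
  have hs : SEr P (b + η) (3 * η / 2) := by
    refine ser_of hm (by linarith) (by linarith) (by linarith) fun ε' hε' => ?_
    obtain ⟨C0, HC⟩ := h η hη hη2
    obtain ⟨C1, hC1⟩ := el_large (m := m) 0
    refine ⟨max C0 C1, fun N μ α e Λ hP hS y hC => ?_⟩
    refine (HC N μ α e Λ hP hS y ((le_max_left _ _).trans hC)).trans ?_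
    rw [mul_comm]
    apply mul_le_mul_of_nonneg_left _ (Gy_pos hm hS.1.one_le hS.1.re_le y).le
    apply Real.exp_le_exp.2
    apply mul_le_mul_of_nonneg_left _ (hC1 N μ y hS.1.one_le hS.1.re_le ((le_max_right _ _).trans hC))
    linarith
  obtain ⟨C0, HC⟩ := inner (R := 1) hm (by linarith : 0 < b + η) (by linarith) (by linarith) (by linarith)
    (by linarith : 0 < ε / 2) le_rfl hs
  obtain ⟨C1, hC1⟩ := el_large (m := m) 0
  refine ⟨max C0 C1, fun N μ α e Λ hP hS y hC => ?_⟩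
  refine (HC N μ α e Λ hP hS y ((le_max_left _ _).trans hC) b (by rw [ofReal_re, abs_of_pos hb]; linarith)
    (by simp)).trans ?_
  apply mul_le_mul_of_nonneg_left _ (Gy_pos hm hS.1.one_le hS.1.re_le y).le
  apply Real.exp_le_exp.2
  have h5 := hC1 N μ y hS.1.one_le hS.1.re_le ((le_max_right _ _).trans hC)
  have h6 : el N μ y * (b + η + 2 * (3 * η / 2) + ε / 2) ≤ el N μ y * (b + 2 * 0 + ε) :=
    mul_le_mul_of_nonneg_left (by linarith) h5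
  linarith

/-- convexity -/
lemma ser_conv (hm : 1 ≤ m) {b : ℝ} (hb : 0 < b) (hb1 : b ≤ 1 / 2) (h : SEr P b 0) : SE P (b / 2) := by
  rw [← ser0]
  refine ser_of hm le_rfl (by norm_num) (by linarith) fun ε hε => ?_
  obtain ⟨C0, HC⟩ := inner (R := 1) hm hb (by linarith) le_rfl (by norm_num) hε le_rfl h
  refine ⟨C0, fun N μ α e Λ hP hS y hC => ?_⟩
  refine (HC N μ α e Λ hP hS y hC ((0 : ℝ) : ℂ) (by rw [ofReal_re, abs_zero]; exact hb.le)
    (by simp)).trans (le_of_eq ?_)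
  congr 2
  ring

/-- the line `1/2` and the lines `1/2 + b` -/
lemma se_all (hm : 1 ≤ m) : SE P 0 ↔ ∀ b : ℝ, 0 < b → b < 1 / 2 → SEr P b 0 := by
  constructor
  · intro h b hb hb1
    exact se_ser hm h b hb.le hb1.le
  · intro h ε hε
    obtain ⟨b, hbd⟩ : ∃ b : ℝ, b = min ε (1 / 4) := ⟨_, rfl⟩
    have hb : 0 < b := by rw [hbd]; exact lt_min (by linarith) (by norm_num)
    have hb1 : b ≤ ε := by rw [hbd]; exact min_le_left _ _
    have hb2 : b ≤ 1 / 4 := by rw [hbd]; exact min_le_right _ _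
    obtain ⟨B, HB⟩ := ser_conv hm hb (by linarith) (h b hb (by linarith)) (ε / 2) (by linarith)
    refine ⟨B, fun N μ α e Λ hP hS y => (HB N μ α e Λ hP hS y).trans (Real.exp_le_exp.2 ?_)⟩
    have h7 := Real.log_nonneg (cnd_pos hS.1.one_le μ y)
    have h8 : (b / 2 + ε / 2) * Real.log (cnd N μ y) ≤ (0 + ε) * Real.log (cnd N μ y) :=
      mul_le_mul_of_nonneg_right (by linarith) h7
    linarith

/-- **Two phases.** -/
theorem ser_two (hm : 1 ≤ m) {θ1 θ2 b : ℝ} (hs : Real.sin (θ1 - θ2) ≠ 0) (hb : 0 < b) (hb1 : b < 1 / 2)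
    (h1 : FS P θ1 b) (h2 : FS P θ2 b) : SEr P b 0 := by
  refine ser_near hm hb hb1 (η0 := 1 / 4) (by norm_num) fun η hη hη4 => ?_
  obtain ⟨C1, k1⟩ := few_bd hm hb h1 η hη hη4
  obtain ⟨C2, k2⟩ := few_bd hm hb h2 η hη hη4
  have hs0 : 0 < |Real.sin (θ1 - θ2)| := abs_pos.2 hs
  obtain ⟨C3, k3⟩ := el_large (m := m) (1 / |Real.sin (θ1 - θ2)| / η)
  refine ⟨max C1 (max C2 C3), fun N μ α e Λ hP hS y hC => ?_⟩
  have g1 : C1 ≤ cnd N μ y := (le_max_left _ _).trans hC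
  have g2 : C2 ≤ cnd N μ y := ((le_max_left _ _).trans (le_max_right _ _)).trans hC
  have g3 : C3 ≤ cnd N μ y := ((le_max_right _ _).trans (le_max_right _ _)).trans hC
  have hG := Gy_pos hm hS.1.one_le hS.1.re_le y
  have m1 := k1 N μ α e Λ hP hS y g1 η le_rfl (by linarith)
  have m2 := k2 N μ α e Λ hP hS y g2 η le_rfl (by linarith)
  have m3 := k3 N μ y hS.1.one_le hS.1.re_le g3
  rw [div_le_iff₀ hη] at m3
  obtain ⟨ℓ, hℓ⟩ : ∃ ℓ : ℝ, ℓ = el N μ y := ⟨_, rfl⟩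
  obtain ⟨G, hGd⟩ : ∃ G : ℝ, G = Gy N μ y := ⟨_, rfl⟩
  rw [← hℓ, ← hGd] at m1 m2
  rw [← hℓ] at m3
  rw [← hℓ, ← hGd]
  rw [← hGd] at hG
  have hOp : 0 < ℓ := by
    by_contra hc
    push Not at hc
    have h5 : 0 < 1 / |Real.sin (θ1 - θ2)| := by positivity
    nlinarith
  have h5 := two_ph (XX N Λ) θ1 θ2 b (1 / 2 + (y : ℂ) * I + (η : ℂ))
  have e : 1 / 2 + (y : ℂ) * I + (η : ℂ) + b = 1 / 2 + (y : ℂ) * I + ((b + η : ℝ) : ℂ) := by push_cast; ring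
  rw [e] at h5
  change 2 * |Real.sin (θ1 - θ2)| * ‖fy N Λ y ((b + η : ℝ) : ℂ)‖ ≤ _ at h5
  have h6 : |Real.sin (θ1 - θ2)| * ‖fy N Λ y ((b + η : ℝ) : ℂ)‖ ≤ Real.exp (ℓ * (η + b + η)) * G := by linarith
  have h7 : 1 / |Real.sin (θ1 - θ2)| ≤ Real.exp (ℓ * η) := by
    have := Real.add_one_le_exp (ℓ * η)
    linarith
  calc ‖fy N Λ y ((b + η : ℝ) : ℂ)‖
      = 1 / |Real.sin (θ1 - θ2)| * (|Real.sin (θ1 - θ2)| * ‖fy N Λ y ((b + η : ℝ) : ℂ)‖) := by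
        field_simp
    _ ≤ Real.exp (ℓ * η) * (Real.exp (ℓ * (η + b + η)) * G) :=
        mul_le_mul h7 h6 (by positivity) (Real.exp_pos _).le
    _ = Real.exp (ℓ * (b + 3 * η)) * G := by
        rw [← mul_assoc, ← Real.exp_add]; congr 2; ring
    _ ≤ _ := by
        apply mul_le_mul_of_nonneg_right _ hG.le
        apply Real.exp_le_exp.2
        apply mul_le_mul_of_nonneg_left _ hOp.le
        linarith

/-- **Three shifts.** -/
theorem ser_three (hm : 1 ≤ m) {θ b1 b2 : ℝ} (hc : Real.cos θ ≠ 0) (hb1 : 0 < b1) (hb2 : 0 < b2)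
    (hb : b1 + b2 < 1 / 2) (h1 : FS P θ b1) (h2 : FS P θ b2) (h3 : FS P θ (b1 + b2)) : SEr P (b1 + b2) 0 := by
  refine ser_near hm (by linarith) hb (η0 := min (1 / 4) (b1 / 2)) (lt_min (by norm_num) (by linarith))
    fun η hη hη4' => ?_
  have hη4 : η ≤ 1 / 4 := hη4'.trans (min_le_left _ _)
  have hη2 : η ≤ b1 / 2 := hη4'.trans (min_le_right _ _)
  obtain ⟨C1, k1⟩ := few_bd hm hb1 h1 η hη hη4
  obtain ⟨C2, k2⟩ := few_bd hm hb2 h2 η hη hη4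
  obtain ⟨C4, k4⟩ := few_bd hm (by linarith : 0 < b1 + b2) h3 η hη hη4
  have hs0 : 0 < |Real.cos θ| := abs_pos.2 hc
  obtain ⟨C3, k3⟩ := el_large (m := m) (3 / 2 / |Real.cos θ| / η)
  refine ⟨max (max C1 C2) (max C3 C4), fun N μ α e Λ hP hS y hC => ?_⟩
  have g1 : C1 ≤ cnd N μ y := ((le_max_left _ _).trans (le_max_left _ _)).trans hC
  have g2 : C2 ≤ cnd N μ y := ((le_max_right _ _).trans (le_max_left _ _)).trans hC
  have g3 : C3 ≤ cnd N μ y := ((le_max_left _ _).trans (le_max_right _ _)).trans hC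
  have g4 : C4 ≤ cnd N μ y := ((le_max_right _ _).trans (le_max_right _ _)).trans hC
  have hG := Gy_pos hm hS.1.one_le hS.1.re_le y
  obtain ⟨he, hfe⟩ := XX_fe hm hS
  have m1 := k1 N μ α e Λ hP hS y g1 (b2 + η) (by linarith) (by linarith)
  have m2 := k2 N μ α e Λ hP hS y g2 (b1 - η) (by linarith) (by linarith)
  have m4 := k4 N μ α e Λ hP hS y g4 η le_rfl (by linarith)
  have m3 := k3 N μ y hS.1.one_le hS.1.re_le g3
  rw [div_le_iff₀ hη] at m3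
  obtain ⟨ℓ, hℓ⟩ : ∃ ℓ : ℝ, ℓ = el N μ y := ⟨_, rfl⟩
  obtain ⟨G, hGd⟩ : ∃ G : ℝ, G = Gy N μ y := ⟨_, rfl⟩
  rw [← hℓ, ← hGd] at m1 m2 m4
  rw [← hℓ] at m3
  rw [← hℓ, ← hGd]
  rw [← hGd] at hG
  have hOp : 0 < ℓ := by
    by_contra hc
    push Not at hc
    have h5 : 0 < 3 / 2 / |Real.cos θ| := by positivity
    nlinarith
  have h5 := three (XX N Λ) θ b1 b2 (1 / 2 + (y : ℂ) * I + ((-(b1 + b2 + η) : ℝ) : ℂ))
  have e1 : 1 / 2 + (y : ℂ) * I + ((-(b1 + b2 + η) : ℝ) : ℂ) + b1 =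
      1 / 2 + (y : ℂ) * I + ((-(b2 + η) : ℝ) : ℂ) := by
    push_cast; ring
  have e2 : 1 / 2 + (y : ℂ) * I + ((-(b1 + b2 + η) : ℝ) : ℂ) + 2 * b1 + b2 =
      1 / 2 + (y : ℂ) * I + ((b1 - η : ℝ) : ℂ) := by
    push_cast; ring
  have e3 : 1 / 2 + (y : ℂ) * I + ((-(b1 + b2 + η) : ℝ) : ℂ) + b1 + b2 =
      1 / 2 + (y : ℂ) * I + ((-η : ℝ) : ℂ) := by
    push_cast; ring
  have e4 : ‖XX N Λ (1 / 2 + (y : ℂ) * I + ((-(b1 + b2 + η) : ℝ) : ℂ))‖ =
      ‖fy N Λ y ((b1 + b2 + η : ℝ) : ℂ)‖ := by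
    unfold fy
    rw [hfe (1 / 2 + (y : ℂ) * I + ((b1 + b2 + η : ℝ) : ℂ)), ← left, norm_mul, he, one_mul,
      Complex.norm_conj]
  rw [e3, e2, e1, e4, left, YG_sym he hfe, left, YG_sym he hfe] at h5
  have hmono : ∀ a : ℝ, a ≤ b1 + b2 + 2 * η → Real.exp (ℓ * a) * G ≤
      Real.exp (ℓ * (b1 + b2 + 2 * η)) * G := by
    intro a hab
    have := Real.exp_le_exp.2 (mul_le_mul_of_nonneg_left hab hOp.le)
    gcongr
  have n1 := m1.trans (hmono _ (by linarith))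
  have n2 := m2.trans (hmono _ (by linarith))
  have n4 := m4.trans (hmono _ (by linarith))
  have h6 : |Real.cos θ| * ‖fy N Λ y ((b1 + b2 + η : ℝ) : ℂ)‖ ≤
      3 / 2 * (Real.exp (ℓ * (b1 + b2 + 2 * η)) * G) := by linarith
  have h7 : 3 / 2 / |Real.cos θ| ≤ Real.exp (ℓ * η) := by
    have := Real.add_one_le_exp (ℓ * η)
    linarith
  calc ‖fy N Λ y ((b1 + b2 + η : ℝ) : ℂ)‖
      = 1 / |Real.cos θ| * (|Real.cos θ| * ‖fy N Λ y ((b1 + b2 + η : ℝ) : ℂ)‖) := by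
        field_simp
    _ ≤ 1 / |Real.cos θ| * (3 / 2 * (Real.exp (ℓ * (b1 + b2 + 2 * η)) * G)) :=
        mul_le_mul_of_nonneg_left h6 (by positivity)
    _ = 3 / 2 / |Real.cos θ| * (Real.exp (ℓ * (b1 + b2 + 2 * η)) * G) := by ring
    _ ≤ Real.exp (ℓ * η) * (Real.exp (ℓ * (b1 + b2 + 2 * η)) * G) :=
        mul_le_mul_of_nonneg_right h7 (by positivity)
    _ = Real.exp (ℓ * (b1 + b2 + 3 * η)) * G := by
        rw [← mul_assoc, ← Real.exp_add]; congr 2; ring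
    _ ≤ _ := by
        apply mul_le_mul_of_nonneg_right _ hG.le
        apply Real.exp_le_exp.2
        apply mul_le_mul_of_nonneg_left _ hOp.le
        linarith

/-- **The criterion.** -/
theorem glh_shift (hm : 1 ≤ m) {θ : ℝ} (hc : Real.cos θ ≠ 0) : SE P 0 ↔ ∀ b : ℝ, 0 < b → FS P θ b := by
  rw [se_all hm]
  constructor
  · intro h b hb
    exact few_of hm hb (fun hb1 => h b hb hb1) θ
  · intro h b hb hb1
    have := ser_three hm hc (b1 := b / 2) (b2 := b / 2) (by linarith) (by linarith) (by linarith)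
      (h _ (by linarith)) (h _ (by linarith)) (h _ (by linarith))
    rwa [add_halves] at this

/-- Two phases, equivalence. -/
theorem two_iff (hm : 1 ≤ m) {θ1 θ2 b : ℝ} (hs : Real.sin (θ1 - θ2) ≠ 0) (hb : 0 < b) (hb1 : b < 1 / 2) :
    SEr P b 0 ↔ FS P θ1 b ∧ FS P θ2 b :=
  ⟨fun h => ⟨few_of hm hb (fun _ => h) θ1, few_of hm hb (fun _ => h) θ2⟩,
    fun h => ser_two hm hs hb hb1 h.1 h.2⟩

/-- Subconvexity. -/
theorem subc (hm : 1 ≤ m) {θ b : ℝ} (hc : Real.cos θ ≠ 0) (hb : 0 < b) (hb1 : b ≤ 1 / 2)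
    (h1 : FS P θ (b / 2)) (h2 : FS P θ b) : SE P (b / 2) := by
  refine ser_conv hm hb hb1 ?_
  rcases lt_or_eq_of_le hb1 with hb2 | hb2
  · have := ser_three hm hc (b1 := b / 2) (b2 := b / 2) (by linarith) (by linarith) (by linarith)
      h1 h1 (by rwa [add_halves])
    rwa [add_halves] at this
  · have := conv_ser (P := P) hm b hb.le hb1
    rw [hb2] at this ⊢
    norm_num at this ⊢
    exact this

end Pool.Agent.Hp428.LG
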