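import Pool.Agent.Hp428.LG.C
import Pool.Agent.Hp428.NL.LocC

set_option autoImplicit false

/-!
# Standard L-functions: zero-free half-planes and the zeros of sums of two shifts
-/

namespace Pool.Agent.Hp428.LG

open Complex Filter Topology Set
open Pool.Agent.W169.HF
open Pool.Agent.Hp428.LS (NW GG GG_diff)
open Pool.Agent.Hp428.NLoc (NR locA locB locC locD far)
open H353.E H353.F
open scoped ComplexConjugate

variable {m : ℕ} {P : Cls m}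

lemma nr_of_pf (hm : 1 ≤ m) {N : ℝ} (hN : 1 ≤ N) {μ : Fin m → ℂ} (hμ : ∀ j, (μ j).re ≤ 1 / 2) {Λ : ℂ → ℂ}
    {y K ρ κ ε R : ℝ} (hℓ : 0 ≤ el N μ y) (hρ : 0 ≤ ρ) (hε : ρ + κ ≤ ε) (hκ : 0 ≤ κ)
    (ud : UD K (3 / 2) (el N μ y) (Gy N μ y) (fy N Λ y))
    (pf : Pf κ (1 / 2 + ρ) R (el N μ y) (Gy N μ y) (fy N Λ y)) :
    NR ε R (el N μ y) (Fy N μ Λ y) := by
  have hG := Gy_pos hm hN hμ y
  refine ⟨?_, ?_, fun u u1 u2 u3 => ?_, fun u u1 u2 u3 => ?_⟩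
  · unfold Fy
    exact ud.slow.1.mul_const _
  · obtain ⟨w, hw, h1⟩ := ud.fe
    refine ⟨w, hw, fun u => ?_⟩
    unfold Fy
    rw [map_mul, Complex.conj_ofReal, h1 u]
    ring
  · rw [Fy_norm hm hN hμ, div_le_iff₀ hG]
    refine (pf.upp u (by rwa [abs_of_nonneg u1]) u3).trans ?_
    rw [mul_comm, abs_of_nonneg u1]
    apply mul_le_mul_of_nonneg_right _ hG.le
    apply Real.exp_le_exp.2
    have h1 : max u.re (1 / 2 + ρ) ≤ max u.re (1 / 2) + ρ :=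
      max_le (by linarith [le_max_left u.re (1 / 2)]) (by linarith [le_max_right u.re (1 / 2)])
    have h2 : el N μ y * (max u.re (1 / 2 + ρ) + κ) ≤ el N μ y * (max u.re (1 / 2) + ε) :=
      mul_le_mul_of_nonneg_left (by linarith) hℓ
    linarith
  · rw [Fy_norm hm hN hμ, le_div_iff₀ hG]
    refine le_trans ?_ (pf.low u (by linarith) u2 u3)
    rw [mul_comm]
    apply mul_le_mul_of_nonneg_left _ hG.le
    apply Real.exp_le_exp.2
    have h2 : el N μ y * (u.re - ε) ≤ el N μ y * (u.re - κ) := mul_le_mul_of_nonneg_left (by linarith) hℓ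
    linarith

/-- **The unconditional situation.** -/
theorem nrA (hm : 1 ≤ m) {ε R W : ℝ} (hε : 0 < ε) (hR : 1 ≤ R) :
    ∃ C0 : ℝ, ∀ (N : ℝ) (μ : Fin m → ℂ) (α : Fin m → ℕ → ℂ) (e : ℂ) (Λ : ℂ → ℂ), Std N μ α e Λ →
      ∀ y : ℝ, C0 ≤ cnd N μ y → W ≤ el N μ y ∧ NR ε R (el N μ y) (Fy N μ Λ y) := by
  obtain ⟨η, hη⟩ : ∃ η : ℝ, η = min (ε / 2) 1 := ⟨_, rfl⟩
  have h0 : 0 < η := by rw [hη]; exact lt_min (by linarith) one_pos
  have h1 : η ≤ ε / 2 := by rw [hη]; exact min_le_left _ _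
  have h2 : η ≤ 1 := by rw [hη]; exact min_le_right _ _
  obtain ⟨C1, K, hK, H⟩ := pfA hm h0 h2 h0 hR
  obtain ⟨C2, hC2⟩ := el_large (m := m) W
  refine ⟨max C1 C2, fun N μ α e Λ hS y hC => ?_⟩
  obtain ⟨k1, k2, k3⟩ := H N μ α e Λ hS y ((le_max_left _ _).trans hC)
  exact ⟨hC2 N μ y hS.1.one_le hS.1.re_le ((le_max_right _ _).trans hC),
    nr_of_pf hm hS.1.one_le hS.1.re_le (by linarith) h0.le (by linarith) h0.le k2 k3⟩

/-- asymptotic zero-free half-plane -/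
def ZS (P : Cls m) (b : ℝ) : Prop := ∀ δ : ℝ, 0 < δ → ∃ C0 : ℝ,
  ∀ (N : ℝ) (μ : Fin m → ℂ) (α : Fin m → ℕ → ℂ) (e : ℂ) (Λ : ℂ → ℂ), P N μ α e Λ → Std N μ α e Λ →
  ∀ z : ℂ, XX N Λ z = 0 → C0 ≤ cnd N μ z.im → z.re ≤ 1 / 2 + b + δ

/-- the zeros of the sums are near the line -/
def NS (P : Cls m) (θ b : ℝ) : Prop := ∀ δ : ℝ, 0 < δ → ∃ C0 : ℝ,
  ∀ (N : ℝ) (μ : Fin m → ℂ) (α : Fin m → ℕ → ℂ) (e : ℂ) (Λ : ℂ → ℂ), P N μ α e Λ → Std N μ α e Λ →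
  ∀ z : ℂ, YG (XX N Λ) θ b z = 0 → 0 ≤ z.re → z.re ≤ 1 → C0 ≤ cnd N μ z.im → |z.re - 1 / 2| ≤ δ

/-- the zeros of the sums are simple and on the line -/
def AS (P : Cls m) (θ b : ℝ) : Prop := ∃ C0 : ℝ,
  ∀ (N : ℝ) (μ : Fin m → ℂ) (α : Fin m → ℕ → ℂ) (e : ℂ) (Λ : ℂ → ℂ), P N μ α e Λ → Std N μ α e Λ →
  ∀ z : ℂ, YG (XX N Λ) θ b z = 0 → 0 ≤ z.re → z.re ≤ 1 → C0 ≤ cnd N μ z.im →
    z.re = 1 / 2 ∧ deriv (YG (XX N Λ) θ b) z ≠ 0

lemma Fy_zero (hm : 1 ≤ m) {N : ℝ} (hN : 1 ≤ N) {μ : Fin m → ℂ} (hμ : ∀ j, (μ j).re ≤ 1 / 2) (Λ : ℂ → ℂ)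
    (y : ℝ) (u : ℂ) : Fy N μ Λ y u = 0 ↔ XX N Λ (1 / 2 + (y : ℂ) * I + u) = 0 := by
  have hc0 : (((Gy N μ y)⁻¹ : ℝ) : ℂ) ≠ 0 := by
    rw [Complex.ofReal_ne_zero]
    exact (inv_pos.2 (Gy_pos hm hN hμ y)).ne'
  unfold Fy fy
  constructor
  · intro h
    rcases mul_eq_zero.1 h with h | h
    · exact h
    · exact absurd h hc0
  · intro h
    rw [h, zero_mul]

lemma large {C0 R : ℝ} (hR : 0 ≤ R) {N : ℝ} (hN : 1 ≤ N) {μ : Fin m → ℂ} {y y' : ℝ}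
    (hC : |C0| * (1 + R) ^ m ≤ cnd N μ y) (h : |y' - y| ≤ R) : C0 ≤ cnd N μ y' := by
  have h6 := cndm_shift (N := N) (by linarith) μ h
  have h5 : 0 < (1 + R) ^ m := by positivity
  exact (le_abs_self C0).trans (le_of_mul_le_mul_right (hC.trans h6) h5)

lemma pre (y : ℝ) (u : ℂ) : (1 / 2 + (y : ℂ) * I + u).re = 1 / 2 + u.re ∧
    (1 / 2 + (y : ℂ) * I + u).im = y + u.im := ⟨by simp, by simp⟩

lemma at_z (z : ℂ) : 1 / 2 + (z.im : ℂ) * I + ((z.re - 1 / 2 : ℝ) : ℂ) = z := by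
  apply Complex.ext
  · simp
  · simp

/-- zero-free to the right, in a window -/
lemma free (hm : 1 ≤ m) {b δ R C0 : ℝ} (hR : 0 ≤ R) {N : ℝ} {μ : Fin m → ℂ} {α : Fin m → ℕ → ℂ} {e : ℂ} {Λ : ℂ → ℂ}
    (hS : Std N μ α e Λ) (H : ∀ z : ℂ, XX N Λ z = 0 → C0 ≤ cnd N μ z.im → z.re ≤ 1 / 2 + b + δ) {y : ℝ}
    (hC : |C0| * (1 + R) ^ m ≤ cnd N μ y) :
    ∀ u : ℂ, b + δ < u.re → u.re < R → |u.im| < R → Fy N μ Λ y u ≠ 0 := by
  intro u u1 u2 u3 hu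
  rw [Fy_zero hm hS.1.one_le hS.1.re_le] at hu
  have h1 := H _ hu (large hR hS.1.one_le hC (by rw [(pre y u).2]; simpa using u3.le))
  rw [(pre y u).1] at h1
  linarith

/-- **Zero-free half-planes: simple zeros on the line.** -/
theorem as_of_zs (hm : 1 ≤ m) {b0 b : ℝ} (hb0 : 0 ≤ b0) (hb : b0 < b) (hb1 : b < 1 / 2) (h : ZS P b0) (θ : ℝ) :
    AS P θ b := by
  obtain ⟨ε, R, L0, hε, hR, hL0, H⟩ := locA (b0 + (b - b0) / 2) b (by linarith) (by linarith) hb1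
  obtain ⟨C1, h1⟩ := h ((b - b0) / 2) (by linarith)
  obtain ⟨C2, h2⟩ := nrA (m := m) (W := L0) hm hε hR
  refine ⟨max C2 (|C1| * (1 + R) ^ m), fun N μ α e Λ hP hS z hz hz0 hz1 hC => ?_⟩
  have hN := hS.1.one_le
  have hμ := hS.1.re_le
  obtain ⟨k1, k2⟩ := h2 N μ α e Λ hS z.im ((le_max_left _ _).trans hC)
  obtain ⟨u, hu⟩ : ∃ u : ℂ, u = ((z.re - 1 / 2 : ℝ) : ℂ) := ⟨_, rfl⟩
  have hzu : 1 / 2 + (z.im : ℂ) * I + u = z := by rw [hu]; exact at_z z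
  have e1 : u.re = z.re - 1 / 2 := by rw [hu, Complex.ofReal_re]
  have e2 : u.im = 0 := by rw [hu, Complex.ofReal_im]
  obtain ⟨m1, m2⟩ := H (el N μ z.im) (Fy N μ Λ z.im) k1 k2
    (free hm (by linarith) hS (h1 N μ α e Λ hP hS) ((le_max_right _ _).trans hC))
    (cexp (θ * I)) (cexp (-(θ * I))) (cn θ) (cn' θ) u
    (by rw [e1, abs_le]; constructor <;> linarith) (by rw [e2, abs_zero]; exact zero_le_one)
    (by rw [GG_zero hm hN hμ, hzu]; exact hz)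
  refine ⟨by linarith, fun h0 => m2 ?_⟩
  have hY := YG_diff (XX_diff hN hS.1.entire) θ b
  have h4 : HasDerivAt (fun u : ℂ => YG (XX N Λ) θ b (1 / 2 + (z.im : ℂ) * I + u))
      (deriv (YG (XX N Λ) θ b) (1 / 2 + (z.im : ℂ) * I + u)) u :=
    (hY _).hasDerivAt.comp_const_add (1 / 2 + (z.im : ℂ) * I) u
  have h5 := h4.mul_const (((Gy N μ z.im)⁻¹ : ℝ) : ℂ)
  have h6 : GG (cexp (θ * I)) (cexp (-(θ * I))) b (Fy N μ Λ z.im) =
      fun u => YG (XX N Λ) θ b (1 / 2 + (z.im : ℂ) * I + u) * (((Gy N μ z.im)⁻¹ : ℝ) : ℂ) := by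
    funext w
    exact YG_GG N μ Λ θ b z.im w
  rw [h6, h5.deriv, hzu, h0, zero_mul]

/-- **Zero-free half-planes: zeros near the line.** -/
theorem ns_of_zs (hm : 1 ≤ m) {b : ℝ} (hb : 0 < b) (hb1 : b < 1 / 2) (h : ZS P b) (θ : ℝ) : NS P θ b := by
  intro δ' hδ'
  obtain ⟨δ, hδd⟩ : ∃ δ : ℝ, δ = min δ' (1 / 2) := ⟨_, rfl⟩
  have hδ : 0 < δ := by rw [hδd]; exact lt_min hδ' (by norm_num)
  have hδa : δ ≤ δ' := by rw [hδd]; exact min_le_left _ _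
  have hδb : δ ≤ 1 / 2 := by rw [hδd]; exact min_le_right _ _
  obtain ⟨ε, R, L0, hε, hR, hL0, H⟩ := locC b δ hb hb1 hδ hδb
  obtain ⟨C1, h1⟩ := h (δ / 8) (by linarith)
  obtain ⟨C2, h2⟩ := nrA (m := m) (W := L0) hm hε hR
  refine ⟨max C2 (|C1| * (1 + R) ^ m), fun N μ α e Λ hP hS => ?_⟩
  have hN := hS.1.one_le
  have hμ := hS.1.re_le
  obtain ⟨he, hfe⟩ := XX_fe hm hS
  -- the right side
  have hright : ∀ z : ℂ, YG (XX N Λ) θ b z = 0 → z.re ≤ 1 →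
      max C2 (|C1| * (1 + R) ^ m) ≤ cnd N μ z.im → z.re - 1 / 2 < δ := by
    intro z hz hz1 hC
    by_contra hcon
    push Not at hcon
    obtain ⟨k1, k2⟩ := h2 N μ α e Λ hS z.im ((le_max_left _ _).trans hC)
    obtain ⟨u, hu⟩ : ∃ u : ℂ, u = ((z.re - 1 / 2 : ℝ) : ℂ) := ⟨_, rfl⟩
    have hzu : 1 / 2 + (z.im : ℂ) * I + u = z := by rw [hu]; exact at_z z
    have e1 : u.re = z.re - 1 / 2 := by rw [hu, Complex.ofReal_re]
    have e2 : u.im = 0 := by rw [hu, Complex.ofReal_im]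
    refine H (el N μ z.im) (Fy N μ Λ z.im) k1 k2
      (free hm (by linarith) hS (h1 N μ α e Λ hP hS) ((le_max_right _ _).trans hC))
      (cexp (θ * I)) (cexp (-(θ * I))) (cn θ) (cn' θ) u
      (by rw [e1]; exact hcon) (by rw [e1]; linarith) (by rw [e2, abs_zero]; exact zero_le_one) ?_
    rw [GG_zero hm hN hμ, hzu]
    exact hz
  intro z hz hz0 hz1 hC
  rw [abs_le]
  constructor
  · have h3 : YG (XX N Λ) θ b (1 - conj z) = 0 := by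
      rw [← norm_eq_zero, YG_sym he hfe, hz, norm_zero]
    have h4 := hright (1 - conj z) h3 (by simp; linarith) (by
      have : (1 - conj z).im = z.im := by simp
      rw [this]; exact hC)
    have h5 : (1 - conj z).re = 1 - z.re := by simp
    rw [h5] at h4
    linarith
  · have := hright z hz hz1 hC
    linarith

/-- from the sums: no zeros to the right, in a window -/
lemma nofree (hm : 1 ≤ m) {θ b δ R C0 ε : ℝ} (hb : 0 < b) (hR : 0 ≤ R) {N : ℝ} {μ : Fin m → ℂ}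
    {α : Fin m → ℕ → ℂ} {e : ℂ} {Λ : ℂ → ℂ} (hδ : 0 < δ)
    (hS : Std N μ α e Λ) (H : ∀ z : ℂ, YG (XX N Λ) θ b z = 0 → 0 ≤ z.re → z.re ≤ 1 → C0 ≤ cnd N μ z.im →
      |z.re - 1 / 2| ≤ δ) {y : ℝ} (hC : |C0| * (1 + R) ^ m ≤ cnd N μ y) (hL : 0 < el N μ y)
    (hε : 4 * ε ≤ min b (1 / 4)) (hε0 : 0 < ε) (hF : NR ε (R + b) (el N μ y) (Fy N μ Λ y)) :
    ∀ u : ℂ, δ < u.re → u.re < R → |u.im| < R →
      GG (cexp (θ * I)) (cexp (-(θ * I))) b (Fy N μ Λ y) u ≠ 0 := by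
  intro u u1 u2 u3 hu
  rcases le_or_gt u.re (1 / 2) with h1 | h1
  · rw [GG_zero hm hS.1.one_le hS.1.re_le] at hu
    have h2 := H _ hu (by rw [(pre y u).1]; linarith) (by rw [(pre y u).1]; linarith)
      (large hR hS.1.one_le hC (by rw [(pre y u).2]; simpa using u3.le))
    rw [(pre y u).1, abs_le] at h2
    linarith
  · exact far hb hL (cn θ) (cn' θ) le_rfl hε hε0 hF u h1.le u2.le u3.le hu

lemma sin_e (θ1 θ2 : ℝ) : 2 * |Real.sin (θ1 - θ2)| ≤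
    ‖cexp (θ1 * I) * cexp (-(θ2 * I)) - cexp (θ2 * I) * cexp (-(θ1 * I))‖ := by
  have e3 : cexp (θ1 * I) * cexp (-(θ2 * I)) - cexp (θ2 * I) * cexp (-(θ1 * I)) =
      2 * (Real.sin (θ1 - θ2) : ℂ) * I := by
    rw [Complex.ofReal_sin, Complex.sin, ← Complex.exp_add, ← Complex.exp_add]
    push_cast
    have a1 : (θ1 : ℂ) * I + -(θ2 * I) = ((θ1 : ℂ) - θ2) * I := by ring
    have a2 : (θ2 : ℂ) * I + -(θ1 * I) = -((θ1 : ℂ) - θ2) * I := by ring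
    rw [a1, a2]
    linear_combination (cexp (-((θ1 : ℂ) - θ2) * I) - cexp (((θ1 : ℂ) - θ2) * I)) * (-Complex.I_sq)
  rw [e3, norm_mul, norm_mul, Complex.norm_I, mul_one, Complex.norm_real, Real.norm_eq_abs,
    Complex.norm_ofNat]

/-- a zero to the right of `re = 1` is impossible -/
lemma re_le_one {N : ℝ} {μ : Fin m → ℂ} {α : Fin m → ℕ → ℂ} {e : ℂ} {Λ : ℂ → ℂ}
    (hS : Std N μ α e Λ) {z : ℂ} (hz : XX N Λ z = 0) : z.re ≤ 1 := by
  by_contra hcon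
  push Not at hcon
  have hN0 : (N : ℂ) ≠ 0 := by
    have : N ≠ 0 := by linarith [hS.1.one_le]
    exact_mod_cast this
  unfold XX at hz
  rcases mul_eq_zero.1 hz with h | h
  · exact absurd (Complex.cpow_eq_zero_iff _ _ |>.1 h).1 hN0
  · exact hS.2 _ hcon h

/-- **Two phases give a zero-free half-plane.** -/
theorem zs_of_ns (hm : 1 ≤ m) {θ1 θ2 b : ℝ} (hs : Real.sin (θ1 - θ2) ≠ 0) (hb : 0 < b) (hb1 : b < 1 / 2)
    (h1 : NS P θ1 b) (h2 : NS P θ2 b) : ZS P b := by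
  intro δ' hδ'
  obtain ⟨δ, hδd⟩ : ∃ δ : ℝ, δ = min δ' (1 / 2) := ⟨_, rfl⟩
  have hδ : 0 < δ := by rw [hδd]; exact lt_min hδ' (by norm_num)
  have hδa : δ ≤ δ' := by rw [hδd]; exact min_le_left _ _
  have hδb : δ ≤ 1 / 2 := by rw [hδd]; exact min_le_right _ _
  obtain ⟨ε, R, L0, hε, hR, hL0, H⟩ := locB b δ (2 * |Real.sin (θ1 - θ2)|) hb hb1 hδ hδb
    (by have := abs_pos.2 hs; positivity)
  obtain ⟨ε', hε'd⟩ : ∃ ε' : ℝ, ε' = min ε (min b (1 / 4) / 4) := ⟨_, rfl⟩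
  have hmb : 0 < min b (1 / 4) := lt_min hb (by norm_num)
  have hε' : 0 < ε' := by rw [hε'd]; exact lt_min hε (by positivity)
  have hε'a : ε' ≤ ε := by rw [hε'd]; exact min_le_left _ _
  have hε'b : 4 * ε' ≤ min b (1 / 4) := by
    have : ε' ≤ min b (1 / 4) / 4 := by rw [hε'd]; exact min_le_right _ _
    linarith
  obtain ⟨C0, h0⟩ := nrA (m := m) (W := L0) hm hε' (by linarith : 1 ≤ R + b)
  obtain ⟨C1, k1⟩ := h1 (δ / 8) (by linarith)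
  obtain ⟨C2, k2⟩ := h2 (δ / 8) (by linarith)
  refine ⟨max C0 (max (|C1| * (1 + R) ^ m) (|C2| * (1 + R) ^ m)), fun N μ α e Λ hP hS z hz hC => ?_⟩
  by_contra hcon
  push Not at hcon
  have hN := hS.1.one_le
  have hμ := hS.1.re_le
  have g0 := (le_max_left _ _).trans hC
  have g1 := ((le_max_left _ _).trans (le_max_right _ _)).trans hC
  have g2 := ((le_max_right _ _).trans (le_max_right _ _)).trans hC
  obtain ⟨m1, m2⟩ := h0 N μ α e Λ hS z.im g0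
  have hL : 0 < el N μ z.im := by linarith
  obtain ⟨u, hu⟩ : ∃ u : ℂ, u = ((z.re - 1 / 2 : ℝ) : ℂ) := ⟨_, rfl⟩
  have hzu : 1 / 2 + (z.im : ℂ) * I + u = z := by rw [hu]; exact at_z z
  have e1 : u.re = z.re - 1 / 2 := by rw [hu, Complex.ofReal_re]
  have e2 : u.im = 0 := by rw [hu, Complex.ofReal_im]
  have hz1 := re_le_one hS hz
  refine H (el N μ z.im) (Fy N μ Λ z.im) (cexp (θ1 * I)) (cexp (-(θ1 * I))) (cexp (θ2 * I)) (cexp (-(θ2 * I)))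
    m1 (cn θ1) (cn' θ1) (cn θ2) (cn' θ2) (sin_e θ1 θ2) (m2.mono hε'a (by linarith) hL.le)
    (nofree hm hb (by linarith) (by linarith) hS (k1 N μ α e Λ hP hS) g1 hL hε'b hε' m2)
    (nofree hm hb (by linarith) (by linarith) hS (k2 N μ α e Λ hP hS) g2 hL hε'b hε' m2) u
    (by rw [e1]; linarith) (by rw [e1]; linarith) (by rw [e2, abs_zero]; exact zero_le_one) ?_
  rw [Fy_zero hm hN hμ, hzu]
  exact hz

/-- **One phase, and the size on the line.** -/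
theorem zs_of_one (hm : 1 ≤ m) {θ b : ℝ} (hb : 0 < b) (hb1 : b < 1 / 2) (h : SEr P b 0) (h1 : NS P θ b) :
    ZS P b := by
  intro δ' hδ'
  obtain ⟨δ, hδd⟩ : ∃ δ : ℝ, δ = min δ' (1 / 2) := ⟨_, rfl⟩
  have hδ : 0 < δ := by rw [hδd]; exact lt_min hδ' (by norm_num)
  have hδa : δ ≤ δ' := by rw [hδd]; exact min_le_left _ _
  have hδb : δ ≤ 1 / 2 := by rw [hδd]; exact min_le_right _ _
  obtain ⟨ε, R, L0, ν, hε, hR, hL0, hν, H⟩ := locD b δ hb hb1 hδ hδb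
  obtain ⟨ε', hε'd⟩ : ∃ ε' : ℝ, ε' = min ε (min b (1 / 4) / 4) := ⟨_, rfl⟩
  have hmb : 0 < min b (1 / 4) := lt_min hb (by norm_num)
  have hε' : 0 < ε' := by rw [hε'd]; exact lt_min hε (by positivity)
  have hε'a : ε' ≤ ε := by rw [hε'd]; exact min_le_left _ _
  have hε'b : 4 * ε' ≤ min b (1 / 4) := by
    have : ε' ≤ min b (1 / 4) / 4 := by rw [hε'd]; exact min_le_right _ _
    linarith
  obtain ⟨C0, h0⟩ := nrA (m := m) (W := L0) hm hε' (by linarith : 1 ≤ R + b)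
  obtain ⟨C1, k1⟩ := h1 (δ / 8) (by linarith)
  obtain ⟨C2, k2⟩ := nwB (W := 0) hm hb hb1 hν (le_refl 7) h
  refine ⟨max C0 (max (|C1| * (1 + R) ^ m) C2), fun N μ α e Λ hP hS z hz hC => ?_⟩
  by_contra hcon
  push Not at hcon
  have hN := hS.1.one_le
  have hμ := hS.1.re_le
  have g0 := (le_max_left _ _).trans hC
  have g1 := ((le_max_left _ _).trans (le_max_right _ _)).trans hC
  have g2 := ((le_max_right _ _).trans (le_max_right _ _)).trans hC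
  obtain ⟨m1, m2⟩ := h0 N μ α e Λ hS z.im g0
  obtain ⟨-, n2⟩ := k2 N μ α e Λ hP hS z.im g2
  have hL : 0 < el N μ z.im := by linarith
  obtain ⟨u, hu⟩ : ∃ u : ℂ, u = ((z.re - 1 / 2 : ℝ) : ℂ) := ⟨_, rfl⟩
  have hzu : 1 / 2 + (z.im : ℂ) * I + u = z := by rw [hu]; exact at_z z
  have e1 : u.re = z.re - 1 / 2 := by rw [hu, Complex.ofReal_re]
  have e2 : u.im = 0 := by rw [hu, Complex.ofReal_im]
  have hz1 := re_le_one hS hz
  refine H (el N μ z.im) (Fy N μ Λ z.im) (cexp (θ * I)) (cexp (-(θ * I)))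
    m1 (cn θ) (cn' θ) (m2.mono hε'a (by linarith) hL.le)
    (nofree hm hb (by linarith) (by linarith) hS (k1 N μ α e Λ hP hS) g1 hL hε'b hε' m2) (fun w w1 w2 => ?_) u
    (by rw [e1]; linarith) (by rw [e1]; linarith) (by rw [e2, abs_zero]; exact zero_le_one) ?_
  · rcases le_total 0 w.re with h3 | h3
    · rw [abs_of_nonneg h3] at w1 ⊢
      exact n2.up w h3 (by linarith) (by linarith)
    · rw [abs_of_nonpos h3] at w1 ⊢
      rw [← m2.nsymm]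
      have := n2.up (-conj w) (by simpa using h3) (by simpa using (by linarith : -w.re ≤ 7))
        (by simpa using (by linarith : |w.im| ≤ 7))
      simpa using this
  · rw [Fy_zero hm hN hμ, hzu]
    exact hz

/-- near the line: few zeros -/
lemma fs_of_ns {θ b : ℝ} (h : NS P θ b) : FS P θ b := by
  intro δ ε hδ hε
  obtain ⟨C1, h1⟩ := h (δ / 2) (by linarith)
  refine ⟨|C1| * (1 + 1) ^ m, fun N μ α e Λ hP hS y hC S hS' => ?_⟩
  have hN := hS.1.one_le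
  have : S = ∅ := by
    rw [Finset.eq_empty_iff_forall_notMem]
    intro z hz
    obtain ⟨z1, z2, z3, z4⟩ := hS' z hz
    have h2 := h1 N μ α e Λ hP hS z z1 (by linarith) z3 (large (R := 1) zero_le_one hN hC z4)
    rw [abs_le] at h2
    linarith
  rw [this, Finset.sum_empty]
  have hlog : 0 ≤ Real.log (cnd N μ y) := Real.log_nonneg (cnd_pos hN μ y)
  positivity

lemma zs_half {b : ℝ} (hb : 1 / 2 ≤ b) : ZS P b := fun δ hδ =>
  ⟨0, fun N μ α e Λ _ hS z hz _ => by linarith [re_le_one hS hz]⟩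

/-- **Two phases.** -/
theorem zs_iff (hm : 1 ≤ m) {θ1 θ2 b : ℝ} (hs : Real.sin (θ1 - θ2) ≠ 0) (hb : 0 < b) (hb1 : b < 1 / 2) :
    ZS P b ↔ NS P θ1 b ∧ NS P θ2 b :=
  ⟨fun h => ⟨ns_of_zs hm hb hb1 h θ1, ns_of_zs hm hb hb1 h θ2⟩, fun h => zs_of_ns hm hs hb hb1 h.1 h.2⟩

/-- **One phase, three shifts.** -/
theorem zs_three (hm : 1 ≤ m) {θ b1 b2 : ℝ} (hc : Real.cos θ ≠ 0) (hb1 : 0 < b1) (hb2 : 0 < b2)
    (hb : b1 + b2 < 1 / 2) (h1 : NS P θ b1) (h2 : NS P θ b2) (h3 : NS P θ (b1 + b2)) : ZS P (b1 + b2) :=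
  zs_of_one hm (by linarith) hb (ser_three hm hc hb1 hb2 hb (fs_of_ns h1) (fs_of_ns h2) (fs_of_ns h3)) h3

/-- **One phase, all shifts.** -/
theorem zs_all (hm : 1 ≤ m) {θ : ℝ} (hc : Real.cos θ ≠ 0) :
    (∀ b : ℝ, 0 < b → ZS P b) ↔ ∀ b : ℝ, 0 < b → b < 1 / 2 → NS P θ b := by
  constructor
  · intro h b hb hb1
    exact ns_of_zs hm hb hb1 (h b hb) θ
  · intro h b hb
    rcases le_or_gt (1 / 2) b with hb1 | hb1
    · exact zs_half hb1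
    · have := zs_three hm hc (b1 := b / 2) (b2 := b / 2) (by linarith) (by linarith) (by linarith)
        (h _ (by linarith) (by linarith)) (h _ (by linarith) (by linarith)) (h _ (by linarith) (by linarith))
      rwa [add_halves] at this

lemma ns_of_as {θ b : ℝ} (h : AS P θ b) : NS P θ b := by
  obtain ⟨C0, H⟩ := h
  intro δ hδ
  refine ⟨C0, fun N μ α e Λ hP hS z hz hz0 hz1 hC => ?_⟩
  rw [(H N μ α e Λ hP hS z hz hz0 hz1 hC).1, sub_self, abs_zero]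
  exact hδ.le

/-- **One phase, all shifts, on the line.** -/
theorem zs_all_line (hm : 1 ≤ m) {θ : ℝ} (hc : Real.cos θ ≠ 0) :
    (∀ b : ℝ, 0 < b → ZS P b) ↔ ∀ b : ℝ, 0 < b → b < 1 / 2 → AS P θ b := by
  constructor
  · intro h b hb hb1
    exact as_of_zs hm (b0 := b / 2) (by linarith) (by linarith) hb1 (h _ (by linarith)) θ
  · intro h
    exact (zs_all hm hc).2 fun b hb hb1 => ns_of_as (h b hb hb1)

end Pool.Agent.Hp428.LG
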