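import Pool.Agent.Hp428.LG.D

set_option autoImplicit false

/-!
# The size of L-functions on the critical line and the solutions of `L(s, π) = w C^a`
-/

namespace Pool.Agent.Hp428.LG

open Complex Filter Topology Set
open Pool.Agent.W169.HF
open H353.E H353.F
open scoped ComplexConjugate

variable {m : ℕ} {P : Cls m}

/-- size on the line `1/2 + r`, heights in `Y` -/
def SY (P : Cls m) (Y : Set ℝ) (r a : ℝ) : Prop := ∀ ε : ℝ, 0 < ε → ∃ B : ℝ,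
  ∀ (N : ℝ) (μ : Fin m → ℂ) (α : Fin m → ℕ → ℂ) (e : ℂ) (Λ : ℂ → ℂ), P N μ α e Λ → Std N μ α e Λ →
  ∀ y ∈ Y, ‖LL μ Λ (1 / 2 + (r : ℂ) + (y : ℂ) * I)‖ ≤ Real.exp (B + (a + ε) * Real.log (cnd N μ y))

/-- few solutions of `L = w C^a` -/
def FV (P : Cls m) (Y : Set ℝ) (w : ℂ) (a : ℝ) : Prop := ∀ δ ε : ℝ, 0 < δ → 0 < ε → ∃ C0 : ℝ,
  ∀ (N : ℝ) (μ : Fin m → ℂ) (α : Fin m → ℕ → ℂ) (e : ℂ) (Λ : ℂ → ℂ), P N μ α e Λ → Std N μ α e Λ →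
  ∀ y ∈ Y, C0 ≤ cnd N μ y → Cnt (fun z => LL μ Λ z - w * ((cnd N μ y ^ a : ℝ) : ℂ))
    {z : ℂ | 1 / 2 + δ ≤ z.re ∧ z.re ≤ 1 ∧ |z.im - y| ≤ 5} (ε * Real.log (cnd N μ y))

/-- the values are smaller than `C^a` -/
def NV (P : Cls m) (Y : Set ℝ) (a : ℝ) : Prop := ∀ δ q : ℝ, 0 < δ → 0 < q → ∃ C0 : ℝ,
  ∀ (N : ℝ) (μ : Fin m → ℂ) (α : Fin m → ℕ → ℂ) (e : ℂ) (Λ : ℂ → ℂ), P N μ α e Λ → Std N μ α e Λ →
  ∀ y ∈ Y, C0 ≤ cnd N μ y → ∀ z : ℂ, 1 / 2 + δ ≤ z.re → |z.im - y| ≤ 5 → ‖LL μ Λ z‖ < q * cnd N μ y ^ a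

/-- heights -/
def Nest (Y : ℝ → Set ℝ) : Prop := ∀ T R y y' : ℝ, 0 ≤ R → y ∈ Y T → |y' - y| ≤ R → y' ∈ Y (T + R)

/-! ## The L-function in a window -/

/-- the L-function near the height `y` -/
noncomputable def ly (μ : Fin m → ℂ) (Λ : ℂ → ℂ) (y : ℝ) (u : ℂ) : ℂ := LL μ Λ (1 / 2 + (y : ℂ) * I + u)

lemma ly_diff {μ : Fin m → ℂ} {Λ : ℂ → ℂ} (h : Differentiable ℂ Λ) (y : ℝ) : Differentiable ℂ (ly μ Λ y) := by
  unfold ly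
  exact (LL_diff h).comp (by fun_prop)

lemma nsq' {u : ℂ} {R : ℝ} (h1 : |u.re| ≤ R) (h2 : |u.im| ≤ R) : ‖u‖ ^ 2 ≤ 2 * R ^ 2 := by
  rw [Complex.sq_norm, Complex.normSq_apply]
  have h3 := sq_le_sq' (by linarith [(abs_le.1 h1).1]) (abs_le.1 h1).2
  have h4 := sq_le_sq' (by linarith [(abs_le.1 h2).1]) (abs_le.1 h2).2
  nlinarith

/-- from the completed function to the L-function -/
lemma ly_le (hm : 1 ≤ m) {N : ℝ} (hN : 1 ≤ N) {μ : Fin m → ℂ} (hμ : ∀ j, (μ j).re ≤ 1 / 2) {Λ : ℂ → ℂ} {y R M : ℝ}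
    {u : ℂ} (h0 : 0 ≤ u.re) (h1 : u.re ≤ R) (h2 : |u.im| ≤ R)
    (h : ‖fy N Λ y u‖ ≤ Gy N μ y * Real.exp (el N μ y * u.re + M)) :
    ‖ly μ Λ y u‖ ≤ Real.exp (M + 231 * m * (1 + 2 * R ^ 2)) := by
  have hg := gam_inv hm hN hμ y (u := u) h0
  change _ ≤ (Gy N μ y)⁻¹ * _ at hg
  have hG := Gy_pos hm hN hμ y
  have hn := nsq' (R := R) (by rw [abs_of_nonneg h0]; exact h1) h2
  unfold ly
  rw [LL_eq (by linarith : 0 < N), norm_mul]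
  change ‖fy N Λ y u‖ * _ ≤ _
  calc ‖fy N Λ y u‖ * ‖(gaf N μ (1 / 2 + (y : ℂ) * I + u))⁻¹‖
      ≤ (Gy N μ y * Real.exp (el N μ y * u.re + M)) * ((Gy N μ y)⁻¹ *
        Real.exp (-(el N μ y * u.re) + 231 * m * (1 + ‖u‖ ^ 2))) :=
        mul_le_mul h hg (norm_nonneg _) (by positivity)
    _ = Real.exp (el N μ y * u.re + M) * Real.exp (-(el N μ y * u.re) + 231 * m * (1 + ‖u‖ ^ 2)) := by
        rw [mul_mul_mul_comm, mul_inv_cancel₀ hG.ne', one_mul]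
    _ = Real.exp (M + 231 * m * (1 + ‖u‖ ^ 2)) := by
        rw [← Real.exp_add]; congr 1; ring
    _ ≤ _ := by
        apply Real.exp_le_exp.2
        have : 231 * (m : ℝ) * (1 + ‖u‖ ^ 2) ≤ 231 * m * (1 + 2 * R ^ 2) :=
          mul_le_mul_of_nonneg_left (by linarith) (by positivity)
        linarith

/-- the unconditional bounds -/
theorem lyA (hm : 1 ≤ m) {κ R W : ℝ} (hκ : 0 < κ) (hκ1 : κ ≤ 1) (hR : 1 ≤ R) :
    ∃ C0 : ℝ, ∀ (N : ℝ) (μ : Fin m → ℂ) (α : Fin m → ℕ → ℂ) (e : ℂ) (Λ : ℂ → ℂ), Std N μ α e Λ →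
      ∀ y : ℝ, C0 ≤ cnd N μ y → W ≤ el N μ y ∧ ∀ u : ℂ, 0 ≤ u.re → u.re ≤ R → |u.im| ≤ R →
        ‖ly μ Λ y u‖ ≤ Real.exp (el N μ y * (max (1 / 2 - u.re) 0 + κ)) := by
  obtain ⟨C1, K, hK, H⟩ := pfA hm (by linarith : 0 < κ / 4) (by linarith) (by linarith : 0 < κ / 4) hR
  obtain ⟨C2, hC2⟩ := el_large (m := m) (max W (231 * m * (1 + 2 * R ^ 2) * (2 / κ)))
  refine ⟨max C1 C2, fun N μ α e Λ hS y hC => ?_⟩
  have hN := hS.1.one_le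
  have hμ := hS.1.re_le
  have k0 := hC2 N μ y hN hμ ((le_max_right _ _).trans hC)
  have k0a := (le_max_left _ _).trans k0
  have k0b := (le_max_right _ _).trans k0
  refine ⟨k0a, fun u u0 u1 u2 => ?_⟩
  obtain ⟨k1, ud, pf⟩ := H N μ α e Λ hS y ((le_max_left _ _).trans hC)
  have hℓ : 0 ≤ el N μ y := by linarith
  obtain ⟨ℓ, hℓd⟩ : ∃ ℓ : ℝ, ℓ = el N μ y := ⟨_, rfl⟩
  rw [mul_div_assoc', div_le_iff₀ hκ] at k0b
  have h1 := pf.upp u (by rw [abs_of_nonneg u0]; exact u1) u2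
  have h2 : max |u.re| (1 / 2 + κ / 4) ≤ u.re + (max (1 / 2 - u.re) 0 + κ / 4) := by
    rw [abs_of_nonneg u0]
    apply max_le
    · have := le_max_right (1 / 2 - u.re) 0
      linarith
    · have := le_max_left (1 / 2 - u.re) 0
      linarith
  have h3 : ‖fy N Λ y u‖ ≤ Gy N μ y * Real.exp (el N μ y * u.re +
      el N μ y * (max (1 / 2 - u.re) 0 + κ / 2)) := by
    refine h1.trans ?_
    apply mul_le_mul_of_nonneg_left _ (Gy_pos hm hN hμ y).le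
    apply Real.exp_le_exp.2
    have := mul_le_mul_of_nonneg_left h2 hℓ
    linarith
  refine (ly_le hm hN hμ u0 u1 u2 h3).trans (Real.exp_le_exp.2 ?_)
  linarith

/-- far to the right -/
lemma ly_far (m : ℕ) : ∃ B : ℝ, 0 < B ∧ ∀ (N : ℝ) (μ : Fin m → ℂ) (α : Fin m → ℕ → ℂ) (e : ℂ) (Λ : ℂ → ℂ),
    Std N μ α e Λ → ∀ z : ℂ, 4 ≤ z.re → ‖LL μ Λ z‖ ≤ B := by
  obtain ⟨B1, hB1, hBc⟩ := euler_close m
  refine ⟨1 + |B1|, by positivity, fun N μ α e Λ hS z hz => ?_⟩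
  have d := hS.1
  have hnorm : ∀ j, ∀ p : ℕ, p.Prime → ‖α j p‖ ≤ Real.sqrt p := fun j p hp => by
    refine (d.norm_le j p hp).trans (le_of_eq ?_)
    rw [Real.sqrt_eq_rpow]
  have hL : LL μ Λ z = euler α z := by
    unfold LL
    rw [d.euler z (by linarith), mul_comm, ← mul_assoc, ← Finset.prod_mul_distrib]
    rw [Finset.prod_eq_one, one_mul]
    · rfl
    · intro j _
      apply inv_mul_cancel₀
      apply Gammaℝ_ne_zero_of_re_pos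
      have := d.re_le j
      rw [Complex.sub_re]
      linarith
  rw [hL]
  have h1 := hBc α hnorm z hz
  have h2 : ‖euler α z‖ ≤ ‖euler α z - 1‖ + 1 := by
    have := norm_add_le (euler α z - 1) 1
    rwa [sub_add_cancel, norm_one] at this
  have h3 : B1 * (1 / 2 : ℝ) ^ z.re ≤ |B1| := by
    have h4 : (1 / 2 : ℝ) ^ z.re ≤ 1 := Real.rpow_le_one (by norm_num) (by norm_num) (by linarith)
    have h5 : 0 ≤ (1 / 2 : ℝ) ^ z.re := by positivity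
    calc B1 * (1 / 2 : ℝ) ^ z.re ≤ |B1| * (1 / 2 : ℝ) ^ z.re := mul_le_mul_of_nonneg_right (le_abs_self _) h5
      _ ≤ |B1| * 1 := mul_le_mul_of_nonneg_left h4 (abs_nonneg _)
      _ = _ := mul_one _
  linarith

end Pool.Agent.Hp428.LG
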