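import Pool.Agent.Hp428.LG.E

set_option autoImplicit false

/-!
# From the size on the critical line to the values, and back
-/

namespace Pool.Agent.Hp428.LG

open Complex Filter Topology Set
open Pool.Agent.W169.HF
open Pool.Agent.Hp428.LS (ord_tr mem5)
open Pool.Agent.W186.LH (sabZ)
open H353.E H353.F
open scoped ComplexConjugate

variable {m : ℕ} {P : Cls m}

lemma cpow_le {N : ℝ} (hN : 1 ≤ N) {μ : Fin m → ℂ} (hμ : ∀ j, (μ j).re ≤ 1 / 2) {a : ℝ} (ha : 0 ≤ a) (y : ℝ) :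
    Real.exp (el N μ y * (2 * a) - 10 * m * a) ≤ cnd N μ y ^ a ∧
      cnd N μ y ^ a ≤ Real.exp (el N μ y * (2 * a) + 14 * m * a) := by
  have hc := cnd_pos hN μ y
  rw [Real.rpow_def_of_pos (by linarith), Real.exp_le_exp, Real.exp_le_exp]
  have h1 := mul_le_mul_of_nonneg_right (el_ge hN hμ y) ha
  have h2 := mul_le_mul_of_nonneg_right (el_le hN hμ y) ha
  constructor <;> linarith

lemma at_u (z : ℂ) (y : ℝ) : 1 / 2 + (y : ℂ) * I + (z - (1 / 2 + (y : ℂ) * I)) = z := by ring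

/-- **From the size on the line to the values.** -/
theorem nv_of_sy (hm : 1 ≤ m) {Y : ℝ → Set ℝ} (hY : Nest Y) {a : ℝ} (ha : 0 < a)
    (h : ∀ T : ℝ, SY P (Y T) 0 a) (T : ℝ) : NV P (Y T) a := by
  intro δ' q hδ' hq
  obtain ⟨δ, hδd⟩ : ∃ δ : ℝ, δ = min δ' (1 / 2) := ⟨_, rfl⟩
  have hδ : 0 < δ := by rw [hδd]; exact lt_min hδ' (by norm_num)
  have hδa : δ ≤ δ' := by rw [hδd]; exact min_le_left _ _
  have hδb : δ ≤ 1 / 2 := by rw [hδd]; exact min_le_right _ _
  obtain ⟨κ, hκd⟩ : ∃ κ : ℝ, κ = a * δ := ⟨_, rfl⟩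
  have hκ : 0 < κ := by rw [hκd]; positivity
  obtain ⟨κ1, R, hκ1, hR1, HR⟩ := rect_all (2 * a + 4) 1 κ 6 (by positivity) one_pos
    (by norm_num) hκ (by norm_num)
  obtain ⟨κ2, hκ2d⟩ : ∃ κ2 : ℝ, κ2 = min κ1 (min 1 (a / 2)) := ⟨_, rfl⟩
  have hκ2 : 0 < κ2 := by rw [hκ2d]; exact lt_min hκ1 (lt_min one_pos (by linarith))
  have hκ2a : κ2 ≤ κ1 := by rw [hκ2d]; exact min_le_left _ _
  have hκ2b : κ2 ≤ 1 := by rw [hκ2d]; exact (min_le_right _ _).trans (min_le_left _ _)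
  have hκ2c : κ2 ≤ a / 2 := by rw [hκ2d]; exact (min_le_right _ _).trans (min_le_right _ _)
  obtain ⟨C1, H1⟩ := lyA (m := m) (W := 1) hm hκ2 hκ2b (by linarith : 1 ≤ R)
  obtain ⟨B, HB⟩ := h (T + R) (κ1 / 4) (by positivity)
  obtain ⟨B4, hB4, H4⟩ := ly_far m
  obtain ⟨K1, hK1⟩ : ∃ K1 : ℝ, K1 = |B| + (a + κ1 / 4) * (14 * m + m * Real.log (1 + |R|)) := ⟨_, rfl⟩
  obtain ⟨C2, hC2⟩ := el_large (m := m) (max (K1 * (2 / κ1)) (max ((10 * m * a + |Real.log q| + 1) / κ)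
    ((10 * m * a + |Real.log q| + |Real.log B4| + 1) / (a / 2))))
  refine ⟨max C1 C2, fun N μ α e Λ hP hS y hy hC z hz1 hz2 => ?_⟩
  have hN := hS.1.one_le
  have hμ := hS.1.re_le
  obtain ⟨k1, hly⟩ := H1 N μ α e Λ hS y ((le_max_left _ _).trans hC)
  have k0 := hC2 N μ y hN hμ ((le_max_right _ _).trans hC)
  have l1 := (le_max_left _ _).trans k0
  have l2 := ((le_max_left _ _).trans (le_max_right _ _)).trans k0
  have l3 := ((le_max_right _ _).trans (le_max_right _ _)).trans k0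
  rw [mul_div_assoc', div_le_iff₀ hκ1] at l1
  rw [div_le_iff₀ hκ] at l2
  rw [div_le_iff₀ (by linarith : 0 < a / 2)] at l3
  obtain ⟨ℓ, hℓd⟩ : ∃ ℓ : ℝ, ℓ = el N μ y := ⟨_, rfl⟩
  rw [← hℓd] at k1 hly l1 l2 l3
  have hℓ : 0 < ℓ := by linarith
  -- the lower bound of the target
  have htar : Real.exp (ℓ * (2 * a) - 10 * m * a - |Real.log q|) ≤ q * cnd N μ y ^ a := by
    have h5 := (cpow_le hN hμ ha.le y).1
    rw [← hℓd] at h5
    calc Real.exp (ℓ * (2 * a) - 10 * m * a - |Real.log q|)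
        = Real.exp (-|Real.log q|) * Real.exp (ℓ * (2 * a) - 10 * m * a) := by
          rw [← Real.exp_add]; congr 1; ring
      _ ≤ q * cnd N μ y ^ a := by
          refine mul_le_mul ?_ h5 (Real.exp_pos _).le hq.le
          rw [← Real.exp_log hq, Real.exp_le_exp, Real.exp_log hq]
          exact neg_abs_le _
  obtain ⟨u, hu⟩ : ∃ u : ℂ, u = z - (1 / 2 + (y : ℂ) * I) := ⟨_, rfl⟩
  have hzu : LL μ Λ z = ly μ Λ y u := by
    unfold ly
    rw [hu, at_u]
  have e1 : u.re = z.re - 1 / 2 := by rw [hu]; simp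
  have e2 : u.im = z.im - y := by rw [hu]; simp
  refine lt_of_lt_of_le ?_ htar
  rcases le_or_gt 4 z.re with c1 | c1
  · refine lt_of_le_of_lt (H4 N μ α e Λ hS z c1) ?_
    rw [← Real.log_lt_iff_lt_exp hB4]
    have := le_abs_self (Real.log B4)
    have h6 : ℓ * (a / 2) ≤ ℓ * (2 * a) := mul_le_mul_of_nonneg_left (by linarith) hℓ.le
    linarith
  rw [hzu]
  rcases le_or_gt 1 u.re with c2 | c2
  · have h5 := hly u (by linarith) (by linarith) (by rw [e2]; linarith)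
    refine lt_of_le_of_lt h5 ?_
    rw [Real.exp_lt_exp]
    rw [max_eq_right (by linarith), zero_add]
    have h6 : ℓ * κ2 ≤ ℓ * (a / 2) := mul_le_mul_of_nonneg_left hκ2c hℓ.le
    have h7 : 0 ≤ |Real.log B4| := abs_nonneg _
    have h8 : 0 ≤ ℓ * a := by positivity
    linarith
  -- between the lines
  have hline : ∀ w : ℂ, w.re = 0 → |w.im| ≤ R → ‖ly μ Λ y w‖ ≤ 1 * Real.exp (ℓ * (2 * a) + κ1 * ℓ) := by
    intro w hw1 hw2
    have h5 := HB N μ α e Λ hP hS (y + w.im) (hY T R y _ (by linarith) hy (by simpa using hw2))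
    have e3 : (1 / 2 + ((0 : ℝ) : ℂ) + ((y + w.im : ℝ) : ℂ) * I) = 1 / 2 + (y : ℂ) * I + w := by
      apply Complex.ext
      · simp [hw1]
      · simp
    rw [e3] at h5
    change ‖ly μ Λ y w‖ ≤ _ at h5
    refine h5.trans ?_
    rw [one_mul]
    apply Real.exp_le_exp.2
    have h6 := logm_shift hN μ (y := y + w.im) (y' := y) (R := R) (by
      rw [show y - (y + w.im) = -w.im by ring, abs_neg]
      exact hw2.trans (le_abs_self R))
    have h7 := el_ge hN hμ y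
    rw [← hℓd] at h7
    have h8 : (a + κ1 / 4) * Real.log (cnd N μ (y + w.im)) ≤
        (a + κ1 / 4) * (2 * ℓ + 14 * m + m * Real.log (1 + |R|)) :=
      mul_le_mul_of_nonneg_left (by linarith) (by positivity)
    have hB := le_abs_self B
    rw [hK1] at l1
    linarith
  have key := HR ℓ 0 (2 * a) 0 1 (ly μ Λ y) hℓ.le one_pos (ly_diff hS.1.entire y)
    (by rw [abs_of_nonneg (by positivity)]; linarith) (by rw [abs_zero]; positivity) hline
    (fun w hw1 hw2 => by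
      rw [zero_add] at hw1
      refine (hly w (by linarith) (by linarith) hw2).trans ?_
      rw [one_mul]
      apply Real.exp_le_exp.2
      rw [hw1, max_eq_right (by norm_num), mul_zero]
      have : ℓ * κ2 ≤ ℓ * κ1 := mul_le_mul_of_nonneg_left hκ2a hℓ.le
      linarith)
    (fun w hw1 hw2 hw3 => by
      rw [zero_add] at hw2
      refine (hly w hw1 (by linarith) hw3.le).trans ?_
      rw [one_mul]
      apply Real.exp_le_exp.2
      have h9 : max (1 / 2 - w.re) 0 ≤ 1 := max_le (by linarith) (by norm_num)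
      have : ℓ * (max (1 / 2 - w.re) 0 + κ2) ≤ ℓ * (2 * a + 4) :=
        mul_le_mul_of_nonneg_left (by linarith) hℓ.le
      linarith) u (by linarith) (by linarith) (by rw [e2]; linarith)
  refine lt_of_le_of_lt key ?_
  rw [one_mul, Real.exp_lt_exp, sub_zero, div_one]
  have h9 : ℓ * (2 * a + (0 - 2 * a) * u.re) ≤ ℓ * (2 * a - 2 * κ) := by
    apply mul_le_mul_of_nonneg_left _ hℓ.le
    rw [hκd]
    have : a * δ ≤ a * u.re := mul_le_mul_of_nonneg_left (by linarith) ha.le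
    linarith
  linarith

/-- **Small values: no solutions.** -/
lemma fv_of_nv {Y : Set ℝ} {a : ℝ} {w : ℂ} (hw : w ≠ 0) (h : NV P Y a) : FV P Y w a := by
  intro δ ε hδ hε
  obtain ⟨C0, H⟩ := h δ ‖w‖ hδ (norm_pos_iff.2 hw)
  refine ⟨C0, fun N μ α e Λ hP hS y hy hC S hS' => ?_⟩
  have hN := hS.1.one_le
  have hc := cnd_pos hN μ y
  have : S = ∅ := by
    rw [Finset.eq_empty_iff_forall_notMem]
    intro z hz
    obtain ⟨z1, z2, -, z4⟩ := hS' z hz
    have h1 := H N μ α e Λ hP hS y hy hC z z2 z4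
    rw [sub_eq_zero] at z1
    rw [z1, norm_mul, Complex.norm_real, Real.norm_of_nonneg (by positivity)] at h1
    exact lt_irrefl _ h1
  rw [this, Finset.sum_empty]
  have hlog : 0 ≤ Real.log (cnd N μ y) := Real.log_nonneg hc
  positivity

end Pool.Agent.Hp428.LG
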