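import Pool.Agent.Hp428.LG.F

set_option autoImplicit false

/-!
# Few solutions give the size on the critical line
-/

namespace Pool.Agent.Hp428.LG

open Complex Filter Topology Set
open Pool.Agent.W169.HF
open Pool.Agent.Hp428.LS (ord_tr mem5)
open Pool.Agent.W186.LH (sabZ)
open H353.E H353.F
open scoped ComplexConjugate

variable {m : ℕ} {P : Cls m}

/-- **Few solutions: the size near the line.** -/
theorem near_of_fv (hm : 1 ≤ m) {Y : Set ℝ} {a : ℝ} (ha : 0 < a) {w : ℂ} (hw : w ≠ 0) (h : FV P Y w a)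
    (η : ℝ) (hη : 0 < η) (hη4 : η ≤ 1 / 4) :
    ∃ C0 : ℝ, ∀ (N : ℝ) (μ : Fin m → ℂ) (α : Fin m → ℕ → ℂ) (e : ℂ) (Λ : ℂ → ℂ), P N μ α e Λ → Std N μ α e Λ →
      ∀ y ∈ Y, C0 ≤ cnd N μ y → ‖ly μ Λ y (η : ℂ)‖ ≤ Real.exp (el N μ y * (2 * a + 2 * η)) := by
  obtain ⟨ε1, hε1, hsab⟩ := sabZ η η 2 hη hη4 hη (by norm_num)
  obtain ⟨κ, hκd⟩ : ∃ κ : ℝ, κ = min (a / 2) (1 / 2) := ⟨_, rfl⟩
  have hκ : 0 < κ := by rw [hκd]; exact lt_min (by linarith) (by norm_num)
  have hκa : κ ≤ a / 2 := by rw [hκd]; exact min_le_left _ _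
  have hκb : κ ≤ 1 / 2 := by rw [hκd]; exact min_le_right _ _
  obtain ⟨C3, h3⟩ := h (η / 4) (ε1 / 4) (by positivity) (by positivity)
  obtain ⟨q, hq⟩ : ∃ q : ℝ, q = |Real.log ‖w‖| := ⟨_, rfl⟩
  have hq0 : 0 ≤ q := by rw [hq]; exact abs_nonneg _
  obtain ⟨C1, h1⟩ := lyA (m := m) (R := 10) (W := max (max (14 * m) 1) (max ((10 * m * a + q + 2) / a)
    (max (2 / ε1) ((14 * m * a + q + 2) / η)))) hm hκ (by linarith) (by norm_num)
  refine ⟨max C1 C3, fun N μ α e Λ hP hS y hy hC => ?_⟩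
  have hN := hS.1.one_le
  have hμ := hS.1.re_le
  obtain ⟨k1, hly⟩ := h1 N μ α e Λ hS y ((le_max_left _ _).trans hC)
  have hfew := h3 N μ α e Λ hP hS y hy ((le_max_right _ _).trans hC)
  obtain ⟨ℓ, hℓd⟩ : ∃ ℓ : ℝ, ℓ = el N μ y := ⟨_, rfl⟩
  have l0 := ((le_max_left _ _).trans (le_max_left _ _)).trans k1
  have l1 := ((le_max_right _ _).trans (le_max_left _ _)).trans k1
  have l2 := ((le_max_left _ _).trans (le_max_right _ _)).trans k1
  have l3 := ((le_max_left _ _).trans ((le_max_right _ _).trans (le_max_right _ _))).trans k1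
  have l4 := ((le_max_right _ _).trans ((le_max_right _ _).trans (le_max_right _ _))).trans k1
  rw [div_le_iff₀ ha] at l2
  rw [div_le_iff₀ hε1] at l3
  rw [div_le_iff₀ hη] at l4
  have hge := el_ge hN hμ y
  rw [← hℓd] at l0 l1 l2 l3 l4 hly hge ⊢
  have hℓ : 0 < ℓ := by linarith
  obtain ⟨c, hcd⟩ : ∃ c : ℂ, c = w * ((cnd N μ y ^ a : ℝ) : ℂ) := ⟨_, rfl⟩
  have hcnd := cnd_pos hN μ y
  have hcn : ‖c‖ = ‖w‖ * cnd N μ y ^ a := by
    rw [hcd, norm_mul, Complex.norm_real, Real.norm_of_nonneg (by positivity)]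
  have hwp : 0 < ‖w‖ := norm_pos_iff.2 hw
  have hwl : Real.exp (-q) ≤ ‖w‖ := by
    rw [← Real.le_log_iff_exp_le hwp, hq]
    exact neg_abs_le _
  have hwu : ‖w‖ ≤ Real.exp q := by
    rw [← Real.log_le_iff_le_exp hwp, hq]
    exact le_abs_self _
  obtain ⟨p1, p2⟩ := cpow_le hN hμ ha.le y
  rw [← hℓd] at p1 p2
  have hclo : Real.exp (ℓ * (2 * a) - 10 * m * a - q) ≤ ‖c‖ := by
    rw [hcn]
    calc Real.exp (ℓ * (2 * a) - 10 * m * a - q) = Real.exp (-q) * Real.exp (ℓ * (2 * a) - 10 * m * a) := by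
          rw [← Real.exp_add]; congr 1; ring
      _ ≤ _ := mul_le_mul hwl p1 (Real.exp_pos _).le hwp.le
  have hcup : ‖c‖ ≤ Real.exp (ℓ * (2 * a) + 14 * m * a + q) := by
    rw [hcn]
    calc ‖w‖ * cnd N μ y ^ a ≤ Real.exp q * Real.exp (ℓ * (2 * a) + 14 * m * a) :=
          mul_le_mul hwu p2 (by positivity) (Real.exp_pos _).le
      _ = _ := by rw [← Real.exp_add]; congr 1; ring
  have hcpos : 0 < ‖c‖ := lt_of_lt_of_le (Real.exp_pos _) hclo
  have hc0 : c ≠ 0 := norm_pos_iff.1 hcpos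
  -- on the right the values are small
  have hright : ∀ u : ℂ, 1 / 2 ≤ u.re → u.re ≤ 10 → |u.im| ≤ 10 → ‖ly μ Λ y u‖ ≤ 1 / 2 * ‖c‖ := by
    intro u u1 u2 u3
    have h5 := hly u (by linarith) u2 u3
    rw [max_eq_right (by linarith), zero_add] at h5
    have h6 : ℓ * κ ≤ ℓ * (2 * a) - 10 * m * a - q - 1 := by
      have h7 : ℓ * κ ≤ ℓ * (a / 2) := mul_le_mul_of_nonneg_left hκa hℓ.le
      have h8 : 0 ≤ ℓ * a := by positivity
      linarith
    have h7 : Real.exp (ℓ * κ) ≤ Real.exp (-1) * ‖c‖ := by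
      calc Real.exp (ℓ * κ) ≤ Real.exp (-1 + (ℓ * (2 * a) - 10 * m * a - q)) := Real.exp_le_exp.2 (by linarith)
        _ = Real.exp (-1) * Real.exp (ℓ * (2 * a) - 10 * m * a - q) := Real.exp_add _ _
        _ ≤ _ := mul_le_mul_of_nonneg_left hclo (Real.exp_pos _).le
    have h8 : Real.exp (-1) ≤ 1 / 2 := by
      rw [Real.exp_neg, inv_le_comm₀ (Real.exp_pos _) (by norm_num)]
      have := Real.exp_one_gt_d9
      linarith
    refine h5.trans (h7.trans ?_)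
    exact mul_le_mul_of_nonneg_right h8 hcpos.le
  obtain ⟨F, hF⟩ : ∃ F : ℂ → ℂ, F = fun u => 1 - ly μ Λ y u * c⁻¹ := ⟨_, rfl⟩
  have hld := ly_diff (μ := μ) hS.1.entire y
  have hFd : Differentiable ℂ F := by
    rw [hF]
    exact (hld.mul_const _).const_sub 1
  have hnr : ∀ u, ‖ly μ Λ y u * c⁻¹‖ = ‖ly μ Λ y u‖ / ‖c‖ := fun u => by
    rw [norm_mul, norm_inv, div_eq_mul_inv]
  have hF1 : ∀ u, ‖F u‖ ≤ 1 + ‖ly μ Λ y u‖ / ‖c‖ := fun u => by
    rw [hF, ← hnr]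
    simp only
    refine (norm_sub_le _ _).trans ?_
    rw [norm_one]
  have hF2 : ∀ u, 1 - ‖ly μ Λ y u‖ / ‖c‖ ≤ ‖F u‖ := fun u => by
    rw [hF, ← hnr]
    simp only
    have := norm_sub_norm_le (1 : ℂ) (ly μ Λ y u * c⁻¹)
    rwa [norm_one] at this
  have hF0 : ∀ u, F u = 0 ↔ LL μ Λ (1 / 2 + (y : ℂ) * I + u) - c = 0 := fun u => by
    rw [hF]
    simp only
    unfold ly
    constructor
    · intro h0
      have h1 : LL μ Λ (1 / 2 + (y : ℂ) * I + u) * c⁻¹ * c = c := by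
        rw [← sub_eq_zero.1 h0, one_mul]
      rw [mul_assoc, inv_mul_cancel₀ hc0, mul_one] at h1
      rw [h1, sub_self]
    · intro h0
      rw [sub_eq_zero.1 h0, mul_inv_cancel₀ hc0, sub_self]
  have hexp2 : (2 : ℝ) ≤ Real.exp (ε1 * ℓ) := by
    have := Real.add_one_le_exp (ε1 * ℓ)
    linarith
  have key := hsab ℓ F hℓ hFd ?_ ?_ ?_ (η : ℂ) ?_
  · have h5 : ‖ly μ Λ y (η : ℂ)‖ / ‖c‖ ≤ 1 + Real.exp (η * ℓ) := by
      rw [← hnr]
      have h6 : ly μ Λ y (η : ℂ) * c⁻¹ = 1 - F (η : ℂ) := by rw [hF]; ring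
      rw [h6]
      refine (norm_sub_le _ _).trans ?_
      rw [norm_one]
      linarith
    rw [div_le_iff₀ hcpos] at h5
    have h6 : 1 + Real.exp (η * ℓ) ≤ Real.exp (η * ℓ + 1) := by
      have h7 : 1 ≤ Real.exp (η * ℓ) := Real.one_le_exp (by positivity)
      rw [Real.exp_add]
      have := Real.exp_one_gt_d9
      nlinarith
    calc ‖ly μ Λ y (η : ℂ)‖ ≤ (1 + Real.exp (η * ℓ)) * ‖c‖ := h5
      _ ≤ Real.exp (η * ℓ + 1) * Real.exp (ℓ * (2 * a) + 14 * m * a + q) :=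
          mul_le_mul h6 hcup hcpos.le (Real.exp_pos _).le
      _ = Real.exp (η * ℓ + 1 + (ℓ * (2 * a) + 14 * m * a + q)) := (Real.exp_add _ _).symm
      _ ≤ _ := Real.exp_le_exp.2 (by linarith)
  · intro z hz
    obtain ⟨z1, z2⟩ := mem5 hz
    rw [abs_le] at z1
    refine (hF1 z).trans ?_
    have h5 := hly z (by linarith) (by linarith) (by linarith)
    have h6 : max (1 / 2 - z.re) 0 ≤ 1 / 2 := max_le (by linarith) (by norm_num)
    have h7 : ‖ly μ Λ y z‖ ≤ Real.exp ℓ := by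
      refine h5.trans (Real.exp_le_exp.2 ?_)
      have : ℓ * (max (1 / 2 - z.re) 0 + κ) ≤ ℓ * 1 := mul_le_mul_of_nonneg_left (by linarith) hℓ.le
      linarith
    have h8 : 1 ≤ ‖c‖ := by
      refine le_trans (Real.one_le_exp ?_) hclo
      have : 0 ≤ ℓ * a := by positivity
      linarith
    have h9 : ‖ly μ Λ y z‖ / ‖c‖ ≤ Real.exp ℓ := by
      rw [div_le_iff₀ hcpos]
      have := mul_le_mul_of_nonneg_left h8 (Real.exp_pos ℓ).le
      linarith
    have h10 : 1 ≤ Real.exp ℓ := Real.one_le_exp hℓ.le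
    have h11 : 2 ≤ Real.exp ℓ := by
      have := Real.add_one_le_exp ℓ
      linarith
    calc 1 + ‖ly μ Λ y z‖ / ‖c‖ ≤ 2 * Real.exp ℓ := by linarith
      _ ≤ Real.exp ℓ * Real.exp ℓ := mul_le_mul_of_nonneg_right h11 (Real.exp_pos _).le
      _ = _ := by rw [← Real.exp_add]; congr 1; ring
  · intro z hz
    obtain ⟨z1, z2⟩ := mem5 hz
    rw [abs_le] at z1
    have h5 := hright z (by linarith) (by linarith) (by linarith)
    have h6 : ‖ly μ Λ y z‖ / ‖c‖ ≤ 1 / 2 := by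
      rw [div_le_iff₀ hcpos]
      exact h5
    constructor
    · refine le_trans ?_ (hF2 z)
      have h7 : Real.exp (-(ε1 * ℓ)) ≤ 1 / 2 := by
        rw [Real.exp_neg, inv_le_comm₀ (Real.exp_pos _) (by norm_num)]
        linarith
      linarith
    · refine (hF1 z).trans ?_
      linarith
  · intro S hS'
    have hne : ∃ u, (fun z => LL μ Λ z - c) u ≠ 0 := by
      refine ⟨1 / 2 + (y : ℂ) * I + 1, fun h0 => ?_⟩
      have h5 := hright 1 (by norm_num) (by norm_num) (by norm_num)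
      simp only at h0
      have h6 : ly μ Λ y 1 = c := sub_eq_zero.1 h0
      rw [h6] at h5
      linarith
    have hord : ∀ u, analyticOrderNatAt F u =
        analyticOrderNatAt (fun z => LL μ Λ z - c) (1 / 2 + (y : ℂ) * I + u) := fun u => by
      have h5 := ord_tr (G := fun z => LL μ Λ z - c) (E := fun _ => -c⁻¹)
        ((LL_diff hS.1.entire).sub_const c) hne (a := 1) one_ne_zero (b := 1 / 2 + (y : ℂ) * I) (by fun_prop)
        (fun _ => neg_ne_zero.2 (inv_ne_zero hc0)) u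
      rw [one_mul, add_comm u] at h5
      rw [← h5]
      congr 1
      rw [hF]
      funext v
      unfold ly
      rw [one_mul, add_comm v]
      have : c * c⁻¹ = 1 := mul_inv_cancel₀ hc0
      linear_combination -this
    have k := hfew (S.image fun u => 1 / 2 + (y : ℂ) * I + u) (by
      intro z hz
      rw [Finset.mem_image] at hz
      obtain ⟨u, hu, rfl⟩ := hz
      obtain ⟨u1, u2⟩ := hS' u hu
      obtain ⟨z1, z2⟩ := mem5 u2
      rw [abs_le] at z1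
      refine ⟨by rw [← hcd]; exact (hF0 u).1 u1, ?_⟩
      rw [mem_setOf_eq, (pre y u).1, (pre y u).2]
      refine ⟨by linarith, ?_, ?_⟩
      · by_contra hcon
        push Not at hcon
        have h5 := hright u (by linarith) (by linarith) (by linarith)
        have h6 : ly μ Λ y u = c := sub_eq_zero.1 ((hF0 u).1 u1)
        rw [h6] at h5
        linarith
      · rw [add_sub_cancel_left]
        linarith)
    rw [Finset.sum_image (by
      intro x _ y _ hxy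
      simpa using hxy), ← hcd] at k
    refine le_trans (le_of_eq (Finset.sum_congr rfl fun u _ => ?_)) (k.trans ?_)
    · rw [hord u]
    · have h5 : Real.log (cnd N μ y) ≤ 4 * ℓ := by linarith
      calc ε1 / 4 * Real.log (cnd N μ y) ≤ ε1 / 4 * (4 * ℓ) := mul_le_mul_of_nonneg_left h5 (by positivity)
        _ = _ := by ring
  · rw [Metric.mem_closedBall, dist_eq_norm]
    have e : (η : ℂ) - 5 = ((η - 5 : ℝ) : ℂ) := by push_cast; ring
    rw [e, Complex.norm_real, Real.norm_eq_abs, abs_le]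
    constructor <;> linarith

/-- the size near the line, all conductors -/
lemma sy_near (hm : 1 ≤ m) {Y : Set ℝ} {a η : ℝ} (ha : 0 < a) (hη : 0 < η) (hη4 : η ≤ 1 / 4)
    (h : ∃ C0 : ℝ, ∀ (N : ℝ) (μ : Fin m → ℂ) (α : Fin m → ℕ → ℂ) (e : ℂ) (Λ : ℂ → ℂ), P N μ α e Λ →
      Std N μ α e Λ → ∀ y ∈ Y, C0 ≤ cnd N μ y →
        ‖ly μ Λ y (η : ℂ)‖ ≤ Real.exp (el N μ y * (2 * a + 2 * η))) : SY P Y η (a + η) := by
  intro ε hε
  obtain ⟨C0, HC⟩ := h
  obtain ⟨B2, HT⟩ := aut_triv_r m hm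
  refine ⟨max ((a + η) * (10 * m)) (B2 + 3 / 4 * Real.log (max C0 1)), fun N μ α e Λ hP hS y hy => ?_⟩
  have hN := hS.1.one_le
  have hμ := hS.1.re_le
  have hc := cnd_pos hN μ y
  have hL0 : 0 ≤ Real.log (cnd N μ y) := Real.log_nonneg hc
  rcases le_total (cnd N μ y) (max C0 1) with hsm | hbig
  · refine (HT N μ α e Λ hS.1 y η hη.le (by linarith)).trans (Real.exp_le_exp.2 ?_)
    have h3 : Real.log (cnd N μ y) ≤ Real.log (max C0 1) := Real.log_le_log (by linarith) hsm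
    have h4 := le_max_right ((a + η) * (10 * m)) (B2 + 3 / 4 * Real.log (max C0 1))
    have h5 : 0 ≤ (a + η + ε) * Real.log (cnd N μ y) := mul_nonneg (by linarith) hL0
    linarith
  · have h1 := HC N μ α e Λ hP hS y hy ((le_max_left _ _).trans hbig)
    have e1 : (1 / 2 + (η : ℂ) + (y : ℂ) * I) = 1 / 2 + (y : ℂ) * I + (η : ℂ) := by ring
    rw [e1]
    change ‖ly μ Λ y (η : ℂ)‖ ≤ _
    refine h1.trans (Real.exp_le_exp.2 ?_)
    have h4 := le_max_left ((a + η) * (10 * m)) (B2 + 3 / 4 * Real.log (max C0 1))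
    have h6 := mul_le_mul_of_nonneg_right (el_le hN hμ y) (by linarith : 0 ≤ 2 * a + 2 * η)
    have h8 : 0 ≤ ε * Real.log (cnd N μ y) := by positivity
    linarith

/-- the size on a line, heights in a set -/
lemma lineY (hm : 1 ≤ m) {Y Y' : Set ℝ} {r a κ R : ℝ} (hr : 0 < r) (hr1 : r ≤ 1) (ha : 0 ≤ a) (hκ : 0 < κ)
    (hR : 0 ≤ R) (hY : ∀ y ∈ Y, ∀ v : ℝ, |v| ≤ R → y + v ∈ Y') (h : SY P Y' r a) :
    ∃ C0 : ℝ, ∀ (N : ℝ) (μ : Fin m → ℂ) (α : Fin m → ℕ → ℂ) (e : ℂ) (Λ : ℂ → ℂ), P N μ α e Λ → Std N μ α e Λ →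
      ∀ y ∈ Y, C0 ≤ cnd N μ y → ∀ v : ℝ, |v| ≤ R →
        ‖fy N Λ y ((r : ℂ) + v * I)‖ ≤ Gy N μ y * Real.exp (el N μ y * (r + 2 * a) + κ * el N μ y) := by
  obtain ⟨B, HB⟩ := h (κ / 4) (by positivity)
  obtain ⟨K1, hK1⟩ : ∃ K1 : ℝ, K1 = (226 * m + 25 * m / r) * (1 + (r ^ 2 + R ^ 2)) + |B| +
    (a + κ / 4) * (14 * m + m * Real.log (1 + |R|)) := ⟨_, rfl⟩
  obtain ⟨C0, hC0⟩ := el_large (m := m) (K1 * 2 / κ)
  refine ⟨C0, fun N μ α e Λ hP hS y hy hC v hv => ?_⟩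
  have hN := hS.1.one_le
  have hNpos : 0 < N := by linarith
  have hμ := hS.1.re_le
  have hel := hC0 N μ y hN hμ hC
  rw [div_le_iff₀ hκ] at hel
  have hgu := gam_up hm hN hμ y hr hr1 (u := (r : ℂ) + v * I) (by simp)
  have hre : ((r : ℂ) + v * I).re = r := by simp
  have him : ((r : ℂ) + v * I).im = v := by simp
  rw [hre] at hgu
  obtain ⟨hg0, hg1⟩ := hgu
  have e1 : (1 / 2 + (y : ℂ) * I + ((r : ℂ) + v * I)) = 1 / 2 + (r : ℂ) + ((y + v : ℝ) : ℂ) * I := by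
    push_cast; ring
  have hf : fy N Λ y ((r : ℂ) + v * I) = gaf N μ (1 / 2 + (y : ℂ) * I + ((r : ℂ) + v * I)) *
      LL μ Λ (1 / 2 + (r : ℂ) + ((y + v : ℝ) : ℂ) * I) := by
    unfold fy
    rw [LL_eq hNpos, ← e1]
    generalize gaf N μ (1 / 2 + (y : ℂ) * I + ((r : ℂ) + v * I)) = g at hg0 ⊢
    rw [mul_left_comm, mul_inv_cancel₀ hg0, mul_one]
  rw [hf, norm_mul]
  have h2 := HB N μ α e Λ hP hS (y + v) (hY y hy v hv)
  have h3 := logm_shift hN μ (y := y + v) (y' := y) (R := R) (by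
    rw [show y - (y + v) = -v by ring, abs_neg]
    exact hv.trans (le_abs_self R))
  have hlo := el_ge hN hμ y
  have hnsq : ‖(r : ℂ) + v * I‖ ^ 2 ≤ r ^ 2 + R ^ 2 := nsq (by rw [hre, abs_of_pos hr]) (by rw [him]; exact hv)
  have hG := Gy_pos hm hN hμ y
  have h4 : ‖gaf N μ (1 / 2 + (y : ℂ) * I + ((r : ℂ) + v * I))‖ ≤
      Gy N μ y * Real.exp (el N μ y * r + (226 * m + 25 * m / r) * (1 + (r ^ 2 + R ^ 2))) := by
    refine hg1.trans ?_
    change Gy N μ y * _ ≤ _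
    apply mul_le_mul_of_nonneg_left _ hG.le
    apply Real.exp_le_exp.2
    have : (226 * m + 25 * m / r) * (1 + ‖(r : ℂ) + v * I‖ ^ 2) ≤
        (226 * m + 25 * m / r) * (1 + (r ^ 2 + R ^ 2)) := by
      apply mul_le_mul_of_nonneg_left (by linarith)
      positivity
    change el N μ y * r + _ ≤ _
    linarith
  have h5 : (a + κ / 4) * Real.log (cnd N μ (y + v)) ≤
      (a + κ / 4) * (2 * el N μ y + 14 * m + m * Real.log (1 + |R|)) :=
    mul_le_mul_of_nonneg_left (by linarith) (by positivity)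
  calc _ ≤ (Gy N μ y * Real.exp (el N μ y * r + (226 * m + 25 * m / r) * (1 + (r ^ 2 + R ^ 2)))) *
        Real.exp (B + (a + κ / 4) * Real.log (cnd N μ (y + v))) :=
        mul_le_mul h4 h2 (norm_nonneg _) (by positivity)
    _ = Gy N μ y * Real.exp (el N μ y * r + (226 * m + 25 * m / r) * (1 + (r ^ 2 + R ^ 2)) +
        (B + (a + κ / 4) * Real.log (cnd N μ (y + v)))) := by
        rw [mul_assoc, ← Real.exp_add]
    _ ≤ _ := by
        apply mul_le_mul_of_nonneg_left _ hG.le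
        apply Real.exp_le_exp.2
        have hB := le_abs_self B
        rw [hK1] at hel
        linarith

/-- **Convexity.** -/
theorem innerY (hm : 1 ≤ m) {Y : ℝ → Set ℝ} (hY : Nest Y) {r a κ : ℝ} (hr : 0 < r) (hr1 : r ≤ 1) (ha : 0 ≤ a)
    (hκ : 0 < κ) (h : ∀ T : ℝ, SY P (Y T) r a) (T : ℝ) :
    ∃ C0 : ℝ, ∀ (N : ℝ) (μ : Fin m → ℂ) (α : Fin m → ℕ → ℂ) (e : ℂ) (Λ : ℂ → ℂ), P N μ α e Λ → Std N μ α e Λ →
      ∀ y ∈ Y T, C0 ≤ cnd N μ y →
        ‖fy N Λ y 0‖ ≤ Gy N μ y * Real.exp (el N μ y * (r + 2 * a) + κ * el N μ y) := by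
  obtain ⟨κ1, R1, hκ1, hR1, HR⟩ := rect_all (4 + 2 * a) (2 * r) κ 1 (by positivity) (by linarith) (by linarith) hκ
    (by norm_num)
  obtain ⟨C1, H1⟩ := lineY (Y := Y T) hm hr hr1 ha hκ1 (by linarith : 0 ≤ R1)
    (fun y hy v hv => hY T R1 y (y + v) (by linarith) hy (by simpa using hv)) (h (T + R1))
  obtain ⟨C2, K, hK, H2⟩ := pfA hm one_pos le_rfl one_pos (le_max_right R1 1)
  refine ⟨max C1 C2, fun N μ α e Λ hP hS y hy hC => ?_⟩
  have g1 := (le_max_left _ _).trans hC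
  have g2 := (le_max_right _ _).trans hC
  obtain ⟨hℓ, ud, pf⟩ := H2 N μ α e Λ hS y g2
  have hG := Gy_pos hm hS.1.one_le hS.1.re_le y
  have hl := H1 N μ α e Λ hP hS y hy g1
  have key := HR (el N μ y) (-r) (r + 2 * a) (r + 2 * a) (Gy N μ y) (fy N Λ y) (by linarith) hG ud.slow.1
    (by rw [abs_of_nonneg (by linarith)]; linarith) (by rw [abs_of_nonneg (by linarith)]; linarith)
    (fun w hw1 hw2 => by
      have e1 : w = -conj ((r : ℂ) + w.im * I) := by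
        apply Complex.ext <;> simp [hw1]
      rw [e1, fy_symm ud]
      exact hl w.im hw2)
    (fun w hw1 hw2 => by
      have e1 : w = (r : ℂ) + w.im * I := by
        apply Complex.ext
        · simp [hw1]; ring
        · simp
      rw [e1]
      exact hl w.im hw2)
    (fun w hw1 hw2 hw3 => by
      refine (pf.upp w ?_ ?_).trans ?_
      · rw [abs_le]
        have := le_max_right R1 1
        constructor <;> linarith
      · rw [hw3]; exact le_max_left _ _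
      · apply mul_le_mul_of_nonneg_left _ hG.le
        apply Real.exp_le_exp.2
        have h5 : max |w.re| (1 / 2 + 1) ≤ 3 := by
          apply max_le _ (by norm_num)
          rw [abs_le]
          constructor <;> linarith
        have h6 : el N μ y * max |w.re| (1 / 2 + 1) ≤ el N μ y * 3 := mul_le_mul_of_nonneg_left h5 (by linarith)
        have h7 : 0 ≤ el N μ y * (2 * a) := mul_nonneg (by linarith) (by linarith)
        linarith) 0 (by simp; linarith) (by simp; linarith) (by simp)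
  rwa [sub_self, zero_mul, add_zero] at key

/-- **Few solutions: the size on the line.** -/
theorem sy_of_fv (hm : 1 ≤ m) {Y : ℝ → Set ℝ} (hY : Nest Y) {a : ℝ} (ha : 0 < a) {w : ℂ} (hw : w ≠ 0)
    (h : ∀ T : ℝ, FV P (Y T) w a) (T : ℝ) : SY P (Y T) 0 a := by
  intro ε hε
  obtain ⟨η, hηd⟩ : ∃ η : ℝ, η = min (ε / 4) (1 / 4) := ⟨_, rfl⟩
  have hη : 0 < η := by rw [hηd]; exact lt_min (by linarith) (by norm_num)
  have hη1 : η ≤ ε / 4 := by rw [hηd]; exact min_le_left _ _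
  have hη4 : η ≤ 1 / 4 := by rw [hηd]; exact min_le_right _ _
  have h1 : ∀ T : ℝ, SY P (Y T) η (a + η) := fun T =>
    sy_near hm ha hη hη4 (near_of_fv hm ha hw (h T) η hη hη4)
  obtain ⟨C0, HC⟩ := innerY hm hY hη (by linarith) (by linarith : 0 ≤ a + η) hη h1 T
  obtain ⟨B2, HT⟩ := aut_triv_r m hm
  refine ⟨max (462 * m + (2 * a + ε) * (5 * m)) (B2 + 3 / 4 * Real.log (max C0 1)),
    fun N μ α e Λ hP hS y hy => ?_⟩
  have hN := hS.1.one_le
  have hμ := hS.1.re_le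
  have hc := cnd_pos hN μ y
  have hL0 : 0 ≤ Real.log (cnd N μ y) := Real.log_nonneg hc
  rcases le_total (cnd N μ y) (max C0 1) with hsm | hbig
  · refine (HT N μ α e Λ hS.1 y 0 le_rfl (by norm_num)).trans (Real.exp_le_exp.2 ?_)
    have h3 : Real.log (cnd N μ y) ≤ Real.log (max C0 1) := Real.log_le_log (by linarith) hsm
    have h4 := le_max_right (462 * m + (2 * a + ε) * (5 * m)) (B2 + 3 / 4 * Real.log (max C0 1))
    have h5 : 0 ≤ (a + ε) * Real.log (cnd N μ y) := mul_nonneg (by linarith) hL0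
    linarith
  · have h1 := HC N μ α e Λ hP hS y hy ((le_max_left _ _).trans hbig)
    have e2 : el N μ y * (η + 2 * (a + η)) + η * el N μ y = el N μ y * (2 * a + 4 * η) := by ring
    rw [e2] at h1
    have h2 := LL_le_r hm hN hμ Λ y (r := 0) (M := el N μ y * (2 * a + 4 * η)) le_rfl (by norm_num) (by
      rw [ofReal_zero]
      exact h1)
    refine h2.trans (Real.exp_le_exp.2 ?_)
    have h4 := le_max_left (462 * m + (2 * a + ε) * (5 * m)) (B2 + 3 / 4 * Real.log (max C0 1))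
    have h6 := el_le hN hμ y
    rw [mul_zero, sub_zero]
    have h7 : el N μ y * (2 * a + 4 * η) ≤ (1 / 2 * Real.log (cnd N μ y) + 5 * m) * (2 * a + 4 * η) :=
      mul_le_mul_of_nonneg_right h6 (by linarith)
    have h8 : (1 / 2 * Real.log (cnd N μ y) + 5 * m) * (2 * a + 4 * η) ≤
        (1 / 2 * Real.log (cnd N μ y) + 5 * m) * (2 * a + ε) :=
      mul_le_mul_of_nonneg_left (by linarith) (by positivity)
    have h9 : 0 ≤ ε * Real.log (cnd N μ y) := by positivity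
    linarith

/-- **The criterion.** -/
theorem sy_tfae (hm : 1 ≤ m) {Y : ℝ → Set ℝ} (hY : Nest Y) {a : ℝ} (ha : 0 < a) {w : ℂ} (hw : w ≠ 0) :
    ((∀ T : ℝ, SY P (Y T) 0 a) ↔ ∀ T : ℝ, NV P (Y T) a) ∧
    ((∀ T : ℝ, SY P (Y T) 0 a) ↔ ∀ T : ℝ, FV P (Y T) w a) := by
  have h1 : (∀ T : ℝ, SY P (Y T) 0 a) → ∀ T : ℝ, NV P (Y T) a := fun h T => nv_of_sy hm hY ha h T
  have h2 : (∀ T : ℝ, NV P (Y T) a) → ∀ T : ℝ, FV P (Y T) w a := fun h T => fv_of_nv hw (h T)
  have h3 : (∀ T : ℝ, FV P (Y T) w a) → ∀ T : ℝ, SY P (Y T) 0 a := fun h T => sy_of_fv hm hY ha hw h T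
  exact ⟨⟨h1, fun h => h3 (h2 h)⟩, ⟨fun h => h2 (h1 h), h3⟩⟩

end Pool.Agent.Hp428.LG
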